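import Mathlib
set_option autoImplicit false

/-!
# Forward direction: if the parameter is a natural number, the element lies in the subalgebra
-/

namespace MP_85de51_al

variable {k : Type*} [Field k] {L : Type*} [LieRing L] [LieAlgebra k L]

/-- iterated right bracket -/
def itb (a x : L) : ℕ → L
  | 0 => a
  | (j + 1) => ⁅itb a x j, x⁆

theorem mem_bra (S : LieSubalgebra k L) {a b x : L} (hx : x ∈ S) (h : a - b ∈ S) :
    ⁅a, x⁆ - ⁅b, x⁆ ∈ S := by
  rw [← sub_lie]; exact S.lie_mem h hx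

theorem mem_trans (S : LieSubalgebra k L) {a b c : L} (h : a - b ∈ S) (h' : b - c ∈ S) :
    a - c ∈ S := by
  have := S.add_mem h h'
  rwa [sub_add_sub_cancel] at this

theorem mem_symm (S : LieSubalgebra k L) {a b : L} (h : a - b ∈ S) : b - a ∈ S := by
  have := S.neg_mem h
  rwa [neg_sub] at this

theorem mem_smul (S : LieSubalgebra k L) {a b : L} (t : k) (h : a - b ∈ S) :
    t • a - t • b ∈ S := by
  rw [← smul_sub]; exact S.smul_mem t h

theorem mem_add (S : LieSubalgebra k L) {a b c d : L} (h : a - b ∈ S) (h' : c - d ∈ S) :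
    (a + c) - (b + d) ∈ S := by
  have := S.add_mem h h'
  rwa [sub_add_sub_comm] at this

theorem rbr (a x y : L) : ⁅⁅a, x⁆, y⁆ = ⁅⁅a, y⁆, x⁆ + ⁅a, ⁅x, y⁆⁆ := by
  rw [lie_lie a x y, ← lie_skew ⁅a, y⁆ x]
  abel

/-- `∏_{i<j} (i - n)` -/
def pp (k : Type*) [Field k] (n : ℕ) : ℕ → k
  | 0 => 1
  | (j + 1) => pp k n j * ((j : k) - n)

def qq (k : Type*) [Field k] (n : ℕ) : ℕ → k
  | 0 => 0
  | (j + 1) => qq k n j * ((j : k) - n) + pp k n j

theorem pp_ne [CharZero k] (n : ℕ) : ∀ j, j ≤ n → pp k n j ≠ 0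
  | 0, _ => one_ne_zero
  | (j + 1), h => by
    refine mul_ne_zero (pp_ne n j (by omega)) ?_
    rw [sub_ne_zero]
    intro he
    have := Nat.cast_injective (R := k) he
    omega

theorem fwd [CharZero k] (s u z : L) (hr : ⁅⁅s, u⁆, ⁅⁅s, u⁆, u⁆⁆ = 0) (n : ℕ)
    (S : LieSubalgebra k L) (hs : s ∈ S) (hu : u ∈ S)
    (h1 : ⁅z, u⁆ + (n : k) • ⁅z, ⁅s, u⁆⁆ ∈ S)
    (h2 : ⁅z, ⁅u, ⁅s, u⁆⁆⁆ + ⁅⁅z, ⁅s, u⁆⁆, ⁅s, u⁆⁆ ∈ S)
    (h3 : ⁅⁅z, s⁆, u⁆ - ⁅z, s⁆ ∈ S) : ⁅z, s⁆ ∈ S := by
  obtain ⟨v, hv⟩ : ∃ v, v = ⁅s, u⁆ := ⟨_, rfl⟩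
  have hvS : v ∈ S := by rw [hv]; exact S.lie_mem hs hu
  rw [← hv] at hr h1 h2
  obtain ⟨c, hc⟩ : ∃ c, c = ⁅u, v⁆ := ⟨_, rfl⟩
  rw [← hc] at h2
  have hvu : ⁅v, u⁆ = -c := by rw [hc, lie_skew]
  have hvc : ⁅v, c⁆ = 0 := by
    rw [hvu, lie_neg, neg_eq_zero] at hr
    exact hr
  -- the sequence X
  have hXc : ∀ j, ⁅itb z v j, c⁆ - -(itb z v (j + 2)) ∈ S := by
    intro j
    induction j with
    | zero =>
      rw [sub_neg_eq_add]; exact h2
    | succ j ih =>
      have h := mem_bra S hvS ih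
      have e1 : ⁅itb z v (j + 1), c⁆ = ⁅⁅itb z v j, c⁆, v⁆ := by
        show ⁅⁅itb z v j, v⁆, c⁆ = _
        rw [rbr, hvc, lie_zero, add_zero]
      have e5 : -(itb z v (j + 1 + 2)) = ⁅-(itb z v (j + 2)), v⁆ := by
        rw [neg_lie]; rfl
      rw [e1, e5]; exact h
  have hXu : ∀ j : ℕ, ⁅itb z v j, u⁆ - ((j : k) - n) • itb z v (j + 1) ∈ S := by
    intro j
    induction j with
    | zero =>
      have : ⁅itb z v 0, u⁆ - (((0 : ℕ) : k) - n) • itb z v (0 + 1) =
          ⁅z, u⁆ + (n : k) • ⁅z, v⁆ := by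
        show ⁅z, u⁆ - (((0 : ℕ) : k) - n) • ⁅z, v⁆ = _
        rw [Nat.cast_zero, zero_sub, neg_smul, sub_neg_eq_add]
      rw [this]; exact h1
    | succ j ih =>
      have h := mem_add S (mem_bra S hvS ih) (mem_symm S (mem_smul S (-1 : k) (mem_symm S (hXc j))))
      have e1 : ⁅itb z v (j + 1), u⁆ = ⁅⁅itb z v j, u⁆, v⁆ + (-1 : k) • ⁅itb z v j, c⁆ := by
        show ⁅⁅itb z v j, v⁆, u⁆ = _
        rw [rbr, hvu, lie_neg, neg_smul, one_smul]
      have e2 : (((j + 1 : ℕ) : k) - n) • itb z v (j + 1 + 1) =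
          ⁅((j : k) - n) • itb z v (j + 1), v⁆ + (-1 : k) • -(itb z v (j + 2)) := by
        rw [smul_lie]
        show _ = ((j : k) - n) • itb z v (j + 2) + (-1 : k) • -(itb z v (j + 2))
        rw [smul_neg, neg_smul, neg_neg, ← add_smul]
        push_cast
        congr 1
        ring
      rw [e1, e2]; exact h
  have hY : ∀ j : ℕ, itb z u j - pp k n j • itb z v j ∈ S := by
    intro j
    induction j with
    | zero =>
      have : itb z u 0 - pp k n 0 • itb z v 0 = 0 := by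
        show z - (1 : k) • z = 0
        rw [one_smul, sub_self]
      rw [this]; exact S.zero_mem
    | succ j ih =>
      have h := mem_trans S (mem_bra S hu ih) (by
        rw [smul_lie]; exact mem_smul S (pp k n j) (hXu j))
      rw [smul_smul] at h
      exact h
  have hE : ∀ j : ℕ, itb ⁅z, s⁆ u j - (⁅itb z u j, s⁆ + qq k n j • itb z v j) ∈ S := by
    intro j
    induction j with
    | zero =>
      have : itb ⁅z, s⁆ u 0 - (⁅itb z u 0, s⁆ + qq k n 0 • itb z v 0) = 0 := by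
        show ⁅z, s⁆ - (⁅z, s⁆ + (0 : k) • z) = 0
        rw [zero_smul, add_zero, sub_self]
      rw [this]; exact S.zero_mem
    | succ j ih =>
      have h := mem_bra S hu ih
      rw [add_lie, rbr (itb z u j) s u, ← hv, smul_lie] at h
      have h4 : (⁅⁅itb z u j, u⁆, s⁆ + ⁅itb z u j, v⁆ + qq k n j • ⁅itb z v j, u⁆) -
          (⁅⁅itb z u j, u⁆, s⁆ + pp k n j • itb z v (j + 1) +
            qq k n j • (((j : k) - n) • itb z v (j + 1))) ∈ S := by
        refine mem_add S (mem_add S ?_ ?_) (mem_smul S _ (hXu j))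
        · rw [sub_self]; exact S.zero_mem
        · have := mem_bra S hvS (hY j)
          rwa [smul_lie] at this
      have h5 := mem_trans S h h4
      have e : ⁅itb z u (j + 1), s⁆ + qq k n (j + 1) • itb z v (j + 1) =
          ⁅⁅itb z u j, u⁆, s⁆ + pp k n j • itb z v (j + 1) +
            qq k n j • (((j : k) - n) • itb z v (j + 1)) := by
        show ⁅⁅itb z u j, u⁆, s⁆ + (qq k n j * ((j : k) - n) + pp k n j) • itb z v (j + 1) = _
        rw [add_smul, mul_smul]
        abel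
      rw [e]; exact h5
  have hsig : ∀ j : ℕ, itb ⁅z, s⁆ u j - ⁅z, s⁆ ∈ S := by
    intro j
    induction j with
    | zero =>
      have : itb ⁅z, s⁆ u 0 - ⁅z, s⁆ = 0 := sub_self _
      rw [this]; exact S.zero_mem
    | succ j ih => exact mem_trans S (mem_bra S hu ih) h3
  -- at level n + 1
  have hp0 : pp k n (n + 1) = 0 := by
    show pp k n n * ((n : k) - n) = 0
    rw [sub_self, mul_zero]
  have hq0 : qq k n (n + 1) = pp k n n := by
    show qq k n n * ((n : k) - n) + pp k n n = _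
    rw [sub_self, mul_zero, zero_add]
  have hYS : itb z u (n + 1) ∈ S := by
    have := hY (n + 1)
    rwa [hp0, zero_smul, sub_zero] at this
  have hsX : ⁅z, s⁆ - pp k n n • itb z v (n + 1) ∈ S := by
    have h := mem_trans S (mem_symm S (hsig (n + 1))) (hE (n + 1))
    rw [hq0] at h
    have h' : (⁅itb z u (n + 1), s⁆ + pp k n n • itb z v (n + 1)) -
        pp k n n • itb z v (n + 1) ∈ S := by
      rw [add_sub_cancel_right]; exact S.lie_mem hYS hs
    exact mem_trans S h h'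
  have hX1 : pp k n n • itb z v (n + 2) - pp k n n • itb z v (n + 1) ∈ S := by
    have h := mem_bra S hu hsX
    rw [smul_lie] at h
    have h' := mem_smul S (pp k n n) (hXu (n + 1))
    have e : (((n + 1 : ℕ) : k) - n) = 1 := by push_cast; ring
    rw [e, one_smul] at h'
    exact mem_trans S (mem_symm S h') (mem_trans S (mem_symm S h) (mem_trans S h3 hsX))
  have hpn := pp_ne (k := k) n n le_rfl
  have hX2 : itb z v (n + 2) - itb z v (n + 1) ∈ S := by
    have := mem_smul S (pp k n n)⁻¹ hX1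
    rwa [smul_smul, smul_smul, inv_mul_cancel₀ hpn, one_smul, one_smul] at this
  have hX3 : itb z v (n + 3) - itb z v (n + 2) ∈ S := mem_bra S hvS hX2
  have hX4 : (2 : k) • itb z v (n + 3) - itb z v (n + 2) ∈ S := by
    have h := mem_bra S hu hX2
    have h1' := hXu (n + 1)
    have e : (((n + 1 : ℕ) : k) - n) = 1 := by push_cast; ring
    rw [e, one_smul] at h1'
    have h2' := hXu (n + 2)
    have e' : (((n + 2 : ℕ) : k) - n) = 2 := by push_cast; ring
    rw [e'] at h2'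
    exact mem_trans S (mem_symm S h2') (mem_trans S h h1')
  have hX5 : itb z v (n + 2) ∈ S := by
    have h := mem_trans S (mem_symm S (mem_smul S (2 : k) hX3)) hX4
    have e : (2 : k) • itb z v (n + 2) - itb z v (n + 2) = itb z v (n + 2) := by
      rw [two_smul, add_sub_cancel_right]
    rwa [e] at h
  have hX6 : itb z v (n + 1) ∈ S := by
    have := S.sub_mem hX5 hX2
    rwa [sub_sub_cancel] at this
  have := S.add_mem hsX (S.smul_mem (pp k n n) hX6)
  rwa [sub_add_cancel] at this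

end MP_85de51_al
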