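import Pool.Agent.Lib.MP_85de51_al.Defs
import Pool.Agent.Lib.MP_85de51_al.Fwd
set_option autoImplicit false

/-!
# The model: if the parameter is not a natural number the element is not in the subalgebra
-/

namespace MP_85de51_al

variable {k : Type} [Field k]

attribute [local instance 100] LieRing.ofAssociativeRing

/-- the module -/
abbrev WW (k : Type) : Type := ((ℕ → k) × k) × k

/-- `1 / ((0 - t) ... (j - 1 - t))` -/
def aa (t : k) : ℕ → k
  | 0 => 1
  | (j + 1) => aa t j / ((j : k) - t)

def hh (t : k) : ℕ → k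
  | 0 => 0
  | (j + 1) => hh t j + 1 / ((j : k) - t)

def opU (t : k) : Module.End k (WW k) where
  toFun w := ((fun j => ((j : k) - t) * w.1.1 (j + 1), w.1.2), 0)
  map_add' x y := by
    refine Prod.ext (Prod.ext (funext fun j => ?_) ?_) ?_
    · simp [mul_add]
    · simp
    · simp
  map_smul' c x := by
    refine Prod.ext (Prod.ext (funext fun j => ?_) ?_) ?_
    · simp; ring
    · simp
    · simp

def opS (t : k) : Module.End k (WW k) where
  toFun w := ((fun j => aa t j * w.1.2 - hh t j * w.1.1 j, 0), 0)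
  map_add' x y := by
    refine Prod.ext (Prod.ext (funext fun j => ?_) ?_) ?_
    · simp; ring
    · simp
    · simp
  map_smul' c x := by
    refine Prod.ext (Prod.ext (funext fun j => ?_) ?_) ?_
    · simp; ring
    · simp
    · simp

def opZ : Module.End k (WW k) where
  toFun w := (0, w.1.1 0)
  map_add' x y := by simp
  map_smul' c x := by simp

def opV : Module.End k (WW k) where
  toFun w := ((fun j => w.1.1 (j + 1), 0), 0)
  map_add' x y := by
    refine Prod.ext (Prod.ext (funext fun j => ?_) ?_) ?_ <;> simp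
  map_smul' c x := by
    refine Prod.ext (Prod.ext (funext fun j => ?_) ?_) ?_ <;> simp

theorem bra_SU (t : k) (ht : ∀ j : ℕ, (j : k) - t ≠ 0) : ⁅opS t, opU t⁆ = (opV : Module.End k (WW k)) := by
  refine LinearMap.ext fun w => ?_
  rw [LieRing.of_associative_ring_bracket, LinearMap.sub_apply, Module.End.mul_apply,
    Module.End.mul_apply]
  refine Prod.ext (Prod.ext (funext fun j => ?_) ?_) ?_
  · have := ht j
    simp only [opS, opU, opV, LinearMap.coe_mk, AddHom.coe_mk, Prod.fst_sub, Pi.sub_apply, aa, hh]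
    field_simp
    ring
  · simp [opS, opU, opV]
  · simp [opS, opU, opV]

def opC : Module.End k (WW k) where
  toFun w := ((fun j => - w.1.1 (j + 2), 0), 0)
  map_add' x y := by
    refine Prod.ext (Prod.ext (funext fun j => ?_) ?_) ?_ <;> simp <;> ring
  map_smul' c x := by
    refine Prod.ext (Prod.ext (funext fun j => ?_) ?_) ?_ <;> simp

theorem bra_UV (t : k) : ⁅opU t, (opV : Module.End k (WW k))⁆ = opC := by
  refine LinearMap.ext fun w => ?_
  rw [LieRing.of_associative_ring_bracket, LinearMap.sub_apply, Module.End.mul_apply,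
    Module.End.mul_apply]
  refine Prod.ext (Prod.ext (funext fun j => ?_) ?_) ?_
  · simp only [opC, opU, opV, LinearMap.coe_mk, AddHom.coe_mk, Prod.fst_sub, Pi.sub_apply]
    push_cast
    ring
  · simp [opC, opU, opV]
  · simp [opC, opU, opV]

theorem bra_VC : ⁅(opV : Module.End k (WW k)), (opC : Module.End k (WW k))⁆ = 0 := by
  refine LinearMap.ext fun w => ?_
  rw [LieRing.of_associative_ring_bracket, LinearMap.sub_apply, Module.End.mul_apply,
    Module.End.mul_apply]
  refine Prod.ext (Prod.ext (funext fun j => ?_) ?_) ?_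
  · simp [opC, opV]
  · simp [opC, opV]
  · simp [opC, opV]

/-- the values of the generators -/
def gval (t : k) : Fin 3 → Module.End k (WW k) := ![opS t, opU t, opZ]

/-- the homomorphism from the free Lie algebra -/
noncomputable def phi (t : k) : FreeLieAlgebra k (Fin 3) →ₗ⁅k⁆ Module.End k (WW k) :=
  FreeLieAlgebra.lift k (gval t)

/-- operators with vanishing last component -/
def TT (k : Type) [Field k] : LieSubalgebra k (Module.End k (WW k)) where
  carrier := {F | ∀ w, (F w).2 = 0}
  add_mem' := by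
    intro a b ha hb w
    rw [LinearMap.add_apply, Prod.snd_add, ha w, hb w, add_zero]
  zero_mem' := by intro w; rfl
  smul_mem' := by
    intro c x hx w
    rw [LinearMap.smul_apply, Prod.smul_snd, hx w, smul_zero]
  lie_mem' := by
    intro a b ha hb w
    rw [LieRing.of_associative_ring_bracket, LinearMap.sub_apply, Module.End.mul_apply,
      Module.End.mul_apply, Prod.snd_sub, ha _, hb _, sub_zero]

theorem phi_gs (t : k) : phi t (lmon k gs) = opS t := by
  show phi t (FreeLieAlgebra.of k 0) = _
  rw [phi, FreeLieAlgebra.lift_of_apply]; rfl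

theorem phi_gu (t : k) : phi t (lmon k gu) = opU t := by
  show phi t (FreeLieAlgebra.of k 1) = _
  rw [phi, FreeLieAlgebra.lift_of_apply]; rfl

theorem phi_gz (t : k) : phi t (lmon k gz) = opZ := by
  show phi t (FreeLieAlgebra.of k 2) = _
  rw [phi, FreeLieAlgebra.lift_of_apply]; rfl

theorem lmon_mul (a b : FreeMagma (Fin 3)) : lmon k (a * b) = ⁅lmon k a, lmon k b⁆ := rfl

theorem phi_mul (t : k) (a b : FreeMagma (Fin 3)) :
    phi t (lmon k (a * b)) = ⁅phi t (lmon k a), phi t (lmon k b)⁆ := by
  rw [lmon_mul, LieHom.map_lie]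

theorem phi_gv (t : k) (ht : ∀ j : ℕ, (j : k) - t ≠ 0) : phi t (lmon k gv) = opV := by
  rw [gv, phi_mul, phi_gs, phi_gu, bra_SU t ht]

theorem phi_rel (t : k) (ht : ∀ j : ℕ, (j : k) - t ≠ 0) : phi t (rel0 k) = 0 := by
  rw [rel0, phi_mul, phi_mul, phi_gv t ht, phi_gu, ← lie_skew opV (opU t), bra_UV, lie_neg, bra_VC,
    neg_zero]

theorem ideal_le (t : k) (ht : ∀ j : ℕ, (j : k) - t ≠ 0) {y : FreeLieAlgebra k (Fin 3)}
    (hy : y ∈ (LieSubmodule.lieSpan k (FreeLieAlgebra k (Fin 3)) {rel0 k} :
      LieIdeal k (FreeLieAlgebra k (Fin 3)))) : phi t y = 0 := by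
  have h : (LieSubmodule.lieSpan k (FreeLieAlgebra k (Fin 3)) {rel0 k} :
      LieIdeal k (FreeLieAlgebra k (Fin 3))) ≤ (phi t).ker := by
    rw [LieSubmodule.lieSpan_le]
    intro x hx
    rw [Set.mem_singleton_iff] at hx
    rw [hx]
    exact LieHom.mem_ker.2 (phi_rel t ht)
  exact LieHom.mem_ker.1 (h hy)

theorem lexp_cons (c : k) (m : FreeMagma (Fin 3)) (l : List (k × FreeMagma (Fin 3))) :
    lexp k ((c, m) :: l) = c • lmon k m + lexp k l := by
  simp [lexp]

theorem lexp_nil : lexp k ([] : List (k × FreeMagma (Fin 3))) = 0 := rfl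

theorem TT_gens (t : k) (ht : ∀ j : ℕ, (j : k) - t ≠ 0) (w : List (k × FreeMagma (Fin 3)))
    (hw : w ∈ (inst0 k t).1) : phi t (lexp k w) ∈ TT k := by
  simp only [inst0, List.mem_cons, List.not_mem_nil, or_false] at hw
  rcases hw with rfl | rfl | rfl | rfl | rfl
  · simp only [lexp_cons, lexp_nil, one_smul, add_zero, phi_gs]
    intro w; rfl
  · simp only [lexp_cons, lexp_nil, one_smul, add_zero, phi_gu]
    intro w; rfl
  · simp only [lexp_cons, lexp_nil, one_smul, add_zero, phi_mul, phi_gu, phi_gz, phi_gv t ht,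
      map_add, map_smul]
    intro w
    simp only [LieRing.of_associative_ring_bracket, LinearMap.sub_apply, Module.End.mul_apply,
      LinearMap.add_apply, LinearMap.smul_apply, opZ, opU, opV, LinearMap.coe_mk, AddHom.coe_mk,
      Prod.snd_add, Prod.snd_sub, Prod.smul_snd]
    simp
  · simp only [lexp_cons, lexp_nil, one_smul, add_zero, phi_mul, phi_gu, phi_gz, phi_gv t ht,
      map_add, map_smul, bra_UV]
    intro w
    simp only [LieRing.of_associative_ring_bracket, LinearMap.sub_apply, Module.End.mul_apply,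
      LinearMap.add_apply, LinearMap.smul_apply, opZ, opC, opV, LinearMap.coe_mk, AddHom.coe_mk,
      Prod.snd_add, Prod.snd_sub, Prod.smul_snd]
    simp
  · simp only [lexp_cons, lexp_nil, one_smul, add_zero, phi_mul, phi_gu, phi_gz, phi_gs,
      map_add, map_smul]
    intro w
    simp only [LieRing.of_associative_ring_bracket, LinearMap.sub_apply, Module.End.mul_apply,
      LinearMap.add_apply, LinearMap.smul_apply, opZ, opU, opS, LinearMap.coe_mk, AddHom.coe_mk,
      Prod.snd_add, Prod.snd_sub, Prod.smul_snd, aa, hh]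
    simp

theorem TT_target (t : k) : phi t (lexp k (inst0 k t).2) ∉ TT k := by
  intro h
  simp only [inst0, lexp_cons, lexp_nil, one_smul, add_zero, phi_mul, phi_gz, phi_gs] at h
  have h1 := h ((0, 1), 0)
  simp only [LieRing.of_associative_ring_bracket, LinearMap.sub_apply, Module.End.mul_apply,
      opZ, opS, LinearMap.coe_mk, AddHom.coe_mk, Prod.snd_sub, aa, hh] at h1
  simp at h1

theorem bwd (t : k) (ht : ∀ j : ℕ, (j : k) - t ≠ 0) : ¬ Member k (rel0 k) (inst0 k t) := by
  intro h
  have key : ∀ x ∈ LieSubalgebra.lieSpan k (OneRel k (rel0 k))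
      {x : OneRel k (rel0 k) | ∃ w ∈ (inst0 k t).1, x = LieSubmodule.Quotient.mk (lexp k w)},
      ∃ y : FreeLieAlgebra k (Fin 3), LieSubmodule.Quotient.mk y = x ∧ phi t y ∈ TT k := by
    intro x hx
    induction hx using LieSubalgebra.lieSpan_induction with
    | mem x h =>
      obtain ⟨w, hw, rfl⟩ := h
      exact ⟨_, rfl, TT_gens t ht w hw⟩
    | zero => exact ⟨0, rfl, by rw [map_zero]; exact (TT k).zero_mem⟩
    | add x y _ _ hx hy =>
      obtain ⟨a, rfl, ha⟩ := hx
      obtain ⟨b, rfl, hb⟩ := hy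
      exact ⟨a + b, rfl, by rw [map_add]; exact (TT k).add_mem ha hb⟩
    | smul c x _ hx =>
      obtain ⟨a, rfl, ha⟩ := hx
      exact ⟨c • a, rfl, by rw [map_smul]; exact (TT k).smul_mem c ha⟩
    | lie x y _ _ hx hy =>
      obtain ⟨a, rfl, ha⟩ := hx
      obtain ⟨b, rfl, hb⟩ := hy
      exact ⟨⁅a, b⁆, LieSubmodule.Quotient.mk_bracket _ _ _, by
        rw [LieHom.map_lie]; exact (TT k).lie_mem ha hb⟩
  obtain ⟨y, hy, hyT⟩ := key _ h
  have h2 : y - lexp k (inst0 k t).2 ∈ (LieSubmodule.lieSpan k (FreeLieAlgebra k (Fin 3)) {rel0 k} :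
      LieIdeal k (FreeLieAlgebra k (Fin 3))) := by
    rw [← LieSubmodule.Quotient.mk_eq_zero']
    have : (LieSubmodule.Quotient.mk (y - lexp k (inst0 k t).2) : OneRel k (rel0 k)) =
      LieSubmodule.Quotient.mk y - LieSubmodule.Quotient.mk (lexp k (inst0 k t).2) := rfl
    rw [this, hy, sub_self]
  have h3 := ideal_le t ht h2
  rw [map_sub, sub_eq_zero] at h3
  rw [h3] at hyT
  exact TT_target t hyT

theorem member_iff [CharZero k] (t : k) :
    Member k (rel0 k) (inst0 k t) ↔ ∃ n : ℕ, t = n := by
  constructor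
  · intro h
    by_contra hc
    push Not at hc
    exact bwd t (fun j => sub_ne_zero.2 (fun he => hc j he.symm)) h
  · rintro ⟨n, rfl⟩
    have hI : (LieSubmodule.Quotient.mk (rel0 k) : OneRel k (rel0 k)) = 0 := by
      rw [LieSubmodule.Quotient.mk_eq_zero']
      exact LieSubmodule.subset_lieSpan (Set.mem_singleton _)
    unfold Member
    have hm : ∀ w ∈ (inst0 k (n : k)).1, (LieSubmodule.Quotient.mk (lexp k w) : OneRel k (rel0 k)) ∈
      LieSubalgebra.lieSpan k (OneRel k (rel0 k))
      {x : OneRel k (rel0 k) | ∃ w ∈ (inst0 k (n : k)).1,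
        x = LieSubmodule.Quotient.mk (lexp k w)} := fun w hw =>
      LieSubalgebra.subset_lieSpan ⟨w, hw, rfl⟩
    set SS := LieSubalgebra.lieSpan k (OneRel k (rel0 k))
      {x : OneRel k (rel0 k) | ∃ w ∈ (inst0 k (n : k)).1,
        x = LieSubmodule.Quotient.mk (lexp k w)} with hSS
    have e := fwd (k := k) (L := OneRel k (rel0 k)) (LieSubmodule.Quotient.mk (lmon k gs))
      (LieSubmodule.Quotient.mk (lmon k gu)) (LieSubmodule.Quotient.mk (lmon k gz)) hI n SS
      ?_ ?_ ?_ ?_ ?_
    · have h1 : (LieSubmodule.Quotient.mk (lexp k (inst0 k (n : k)).2) : OneRel k (rel0 k)) =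
        ⁅(LieSubmodule.Quotient.mk (lmon k gz) : OneRel k (rel0 k)),
          LieSubmodule.Quotient.mk (lmon k gs)⁆ := by
        simp only [inst0, lexp_cons, lexp_nil, one_smul, add_zero, lmon_mul]
        exact LieSubmodule.Quotient.mk_bracket _ _ _
      rw [h1]; exact e
    · have := hm [(1, gs)] (by simp [inst0])
      simpa only [lexp_cons, lexp_nil, one_smul, add_zero] using this
    · have := hm [(1, gu)] (by simp [inst0])
      simpa only [lexp_cons, lexp_nil, one_smul, add_zero] using this
    · have := hm [(1, gz * gu), ((n : k), gz * gv)] (by simp [inst0])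
      simp only [lexp_cons, lexp_nil, one_smul, add_zero, lmon_mul, gv] at this
      exact this
    · have := hm [(1, gz * (gu * gv)), (1, (gz * gv) * gv)] (by simp [inst0])
      simp only [lexp_cons, lexp_nil, one_smul, add_zero, lmon_mul, gv] at this
      exact this
    · have := hm [(1, (gz * gs) * gu), (-1, gz * gs)] (by simp [inst0])
      simp only [lexp_cons, lexp_nil, one_smul, add_zero, lmon_mul, neg_smul, ← sub_eq_add_neg]
        at this
      exact this

end MP_85de51_al
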