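import Pool.Agent.Lib.MP_85de51_al.Rep
set_option autoImplicit false

/-!
# Terms, their values, and primitive recursiveness
-/

namespace MP_85de51_al

open Nat.Partrec (Code)
open Nat.Partrec.Code
open Encodable Denumerable

/-- machine `i` has halted on input `0` before stage `s` -/
def HH (i s : ℕ) : Bool := (evaln s (ofNat Code i) 0).isSome

theorem primrec_HH : Primrec₂ HH :=
  Primrec.option_isSome.comp (primrec_evaln.comp
    (Primrec.pair (Primrec.pair Primrec.snd ((Primrec.ofNat Code).comp Primrec.fst))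
      (Primrec.const 0)))

theorem primrec_pow : Primrec₂ (fun a b : ℕ => a ^ b) := by
  have h : Primrec fun p : ℕ × ℕ => (Nat.rec 1 (fun _ r => r * p.1) p.2 : ℕ) :=
    Primrec.nat_rec' (f := Prod.snd) (g := fun _ => 1) (h := fun (p : ℕ × ℕ) (q : ℕ × ℕ) => q.2 * p.1)
      Primrec.snd (Primrec.const 1)
      (Primrec.nat_mul.comp (Primrec.snd.comp Primrec.snd) (Primrec.fst.comp Primrec.fst)).to₂
  refine h.of_eq ?_
  rintro ⟨a, b⟩
  show (Nat.rec 1 (fun _ r => r * a) b : ℕ) = a ^ b
  induction b with
  | zero => simp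
  | succ n ih =>
    rw [pow_succ, ← ih]

theorem primrec_GG : Primrec GG := by
  have h : Primrec (Nat.rec (motive := fun _ => ℕ) 2 (fun m g => g ^ (m + 2))) :=
    Primrec.nat_rec₁ (f := fun m g => g ^ (m + 2)) 2
      (primrec_pow.comp Primrec.snd
        (Primrec.nat_add.comp Primrec.fst (Primrec.const 2))).to₂
  refine h.of_eq ?_
  intro m
  induction m with
  | zero => rfl
  | succ n ih =>
    show (_ : ℕ) ^ (n + 2) = GG n ^ (n + 2)
    rw [← ih]

theorem primrec_tau : Primrec₂ (tau HH) := by
  have h : Primrec fun p : ℕ × ℕ =>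
      (Nat.rec 0 (fun _ r => bif HH p.1 r then r else r + 1) p.2 : ℕ) := by
    refine Primrec.nat_rec' (f := Prod.snd) (g := fun _ => 0)
      (h := fun (p : ℕ × ℕ) (q : ℕ × ℕ) => bif HH p.1 q.2 then q.2 else q.2 + 1)
      Primrec.snd (Primrec.const 0) ?_
    exact (Primrec.cond (primrec_HH.comp (Primrec.fst.comp Primrec.fst)
      (Primrec.snd.comp Primrec.snd)) (Primrec.snd.comp Primrec.snd)
      (Primrec.succ.comp (Primrec.snd.comp Primrec.snd))).to₂
  refine h.of_eq ?_
  rintro ⟨i, N⟩
  show (Nat.rec 0 (fun _ r => bif HH i r then r else r + 1) N : ℕ) = tau HH i N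
  induction N with
  | zero => rfl
  | succ n ih =>
    show (bif HH i (Nat.rec 0 (fun _ r => bif HH i r then r else r + 1) n : ℕ) then
      (Nat.rec 0 (fun _ r => bif HH i r then r else r + 1) n : ℕ) else
      (Nat.rec 0 (fun _ r => bif HH i r then r else r + 1) n : ℕ) + 1) = tau HH i (n + 1)
    rw [ih]
    show _ = if HH i (tau HH i n) then tau HH i n else tau HH i n + 1
    cases HH i (tau HH i n) <;> rfl

/-- the value of the `i`-th variable at stage `N` -/
def xx (N i : ℕ) : ℕ := GG (mm HH N i)

theorem primrec_xx : Primrec₂ xx :=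
  primrec_GG.comp (Primrec₂.natPair.comp Primrec.snd (primrec_tau.comp Primrec.snd Primrec.fst))

/-- bound for the coefficients and the degree -/
def bd : Code → ℕ
  | .zero => 1
  | .succ => 1
  | .left => 1
  | .right => 1
  | .pair a b => bd a + bd b
  | .comp a b => bd a * bd b + bd a + bd b
  | .prec _ _ => 1
  | .rfind' _ => 1

/-- the value of a term at stage `N`, as a difference of natural numbers -/
def vp (N : ℕ) : Code → ℕ × ℕ
  | .zero => (0, 0)
  | .succ => (1, 0)
  | .left => (0, 1)
  | .right => (0, 0)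
  | .pair a b => ((vp N a).1 + (vp N b).1, (vp N a).2 + (vp N b).2)
  | .comp a b => ((vp N a).1 * (vp N b).1 + (vp N a).2 * (vp N b).2,
      (vp N a).1 * (vp N b).2 + (vp N a).2 * (vp N b).1)
  | .prec a _ => (xx N (encode a), 0)
  | .rfind' _ => (0, 0)

theorem primrec_bd : Primrec bd := by
  have h := primrec_recOn (α := Code) (σ := ℕ) (c := id) Primrec.id
    (z := fun _ => 1) (Primrec.const 1) (s := fun _ => 1) (Primrec.const 1)
    (l := fun _ => 1) (Primrec.const 1) (r := fun _ => 1) (Primrec.const 1)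
    (pr := fun _ _ _ x y => x + y)
    (Primrec.nat_add.comp (Primrec.fst.comp (Primrec.snd.comp (Primrec.snd.comp Primrec.snd)))
      (Primrec.snd.comp (Primrec.snd.comp (Primrec.snd.comp Primrec.snd))))
    (co := fun _ _ _ x y => x * y + x + y)
    (by
      have hx : Primrec fun a : Code × Code × Code × ℕ × ℕ => a.2.2.2.1 :=
        Primrec.fst.comp (Primrec.snd.comp (Primrec.snd.comp Primrec.snd))
      have hy : Primrec fun a : Code × Code × Code × ℕ × ℕ => a.2.2.2.2 :=
        Primrec.snd.comp (Primrec.snd.comp (Primrec.snd.comp Primrec.snd))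
      exact Primrec.nat_add.comp (Primrec.nat_add.comp (Primrec.nat_mul.comp hx hy) hx) hy)
    (pc := fun _ _ _ _ _ => 1) (Primrec.const 1)
    (rf := fun _ _ _ => 1) (Primrec.const 1)
  refine h.of_eq ?_
  intro c
  show (Code.recOn c _ _ _ _ _ _ _ _ : ℕ) = bd c
  induction c with
  | zero => rfl
  | succ => rfl
  | left => rfl
  | right => rfl
  | pair a b iha ihb => show _ + _ = bd a + bd b; rw [← iha, ← ihb]
  | comp a b iha ihb => show _ * _ + _ + _ = bd a * bd b + bd a + bd b; rw [← iha, ← ihb]
  | prec a b _ _ => rfl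
  | rfind' a _ => rfl

theorem primrec_vp : Primrec₂ vp := by
  have h := primrec_recOn (α := ℕ × Code) (σ := ℕ × ℕ) (c := Prod.snd) Primrec.snd
    (z := fun _ => (0, 0)) (Primrec.const (0, 0)) (s := fun _ => (1, 0)) (Primrec.const (1, 0))
    (l := fun _ => (0, 1)) (Primrec.const (0, 1)) (r := fun _ => (0, 0)) (Primrec.const (0, 0))
    (pr := fun _ _ _ x y => (x.1 + y.1, x.2 + y.2))
    (by
      have hx : Primrec fun a : (ℕ × Code) × Code × Code × (ℕ × ℕ) × (ℕ × ℕ) => a.2.2.2.1 :=
        Primrec.fst.comp (Primrec.snd.comp (Primrec.snd.comp Primrec.snd))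
      have hy : Primrec fun a : (ℕ × Code) × Code × Code × (ℕ × ℕ) × (ℕ × ℕ) => a.2.2.2.2 :=
        Primrec.snd.comp (Primrec.snd.comp (Primrec.snd.comp Primrec.snd))
      exact Primrec.pair (Primrec.nat_add.comp (Primrec.fst.comp hx) (Primrec.fst.comp hy))
        (Primrec.nat_add.comp (Primrec.snd.comp hx) (Primrec.snd.comp hy)))
    (co := fun _ _ _ x y => (x.1 * y.1 + x.2 * y.2, x.1 * y.2 + x.2 * y.1))
    (by
      have hx : Primrec fun a : (ℕ × Code) × Code × Code × (ℕ × ℕ) × (ℕ × ℕ) => a.2.2.2.1 :=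
        Primrec.fst.comp (Primrec.snd.comp (Primrec.snd.comp Primrec.snd))
      have hy : Primrec fun a : (ℕ × Code) × Code × Code × (ℕ × ℕ) × (ℕ × ℕ) => a.2.2.2.2 :=
        Primrec.snd.comp (Primrec.snd.comp (Primrec.snd.comp Primrec.snd))
      have hx1 := Primrec.fst.comp hx
      have hx2 := Primrec.snd.comp hx
      have hy1 := Primrec.fst.comp hy
      have hy2 := Primrec.snd.comp hy
      exact Primrec.pair
        (Primrec.nat_add.comp (Primrec.nat_mul.comp hx1 hy1) (Primrec.nat_mul.comp hx2 hy2))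
        (Primrec.nat_add.comp (Primrec.nat_mul.comp hx1 hy2) (Primrec.nat_mul.comp hx2 hy1)))
    (pc := fun a c _ _ _ => (xx a.1 (encode c), 0))
    (Primrec.pair (primrec_xx.comp (Primrec.fst.comp Primrec.fst)
      (Primrec.encode.comp (Primrec.fst.comp Primrec.snd))) (Primrec.const 0))
    (rf := fun _ _ _ => (0, 0)) (Primrec.const (0, 0))
  refine Primrec.of_eq h ?_
  rintro ⟨N, c⟩
  show (Code.recOn c _ _ _ _ _ _ _ _ : ℕ × ℕ) = vp N c
  induction c with
  | zero => rfl
  | succ => rfl
  | left => rfl
  | right => rfl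
  | pair a b iha ihb =>
    show _ = ((vp N a).1 + (vp N b).1, (vp N a).2 + (vp N b).2)
    rw [← iha, ← ihb]
  | comp a b iha ihb =>
    show _ = ((vp N a).1 * (vp N b).1 + (vp N a).2 * (vp N b).2,
      (vp N a).1 * (vp N b).2 + (vp N a).2 * (vp N b).1)
    rw [← iha, ← ihb]
  | prec a b _ _ => rfl
  | rfind' a _ => rfl

/-- the value of a term at stage `N` -/
def vz (N : ℕ) (c : Code) : ℤ := ((vp N c).1 : ℤ) - ((vp N c).2 : ℤ)

theorem rep_vz (c : Code) : Rep HH (fun N => vz N c) (bd c) := by
  induction c with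
  | zero => exact Rep.const HH 0 (by decide)
  | succ => exact Rep.const HH 1 (by decide)
  | left => exact Rep.const HH (-1) (by decide)
  | right => exact Rep.const HH 0 (by decide)
  | pair a b iha ihb =>
    have h := Rep.add HH iha ihb
    have h2 : (fun N => vz N (Code.pair a b)) = fun N => vz N a + vz N b := by
      funext N
      simp only [vz, vp]
      push_cast
      ring
    rw [h2]
    exact h
  | comp a b iha ihb =>
    have h := Rep.mul HH iha ihb
    have h2 : (fun N => vz N (Code.comp a b)) = fun N => vz N a * vz N b := by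
      funext N
      simp only [vz, vp]
      push_cast
      ring
    rw [h2]
    exact h
  | prec a b _ _ =>
    have h := Rep.var HH (encode a)
    have h2 : (fun N => vz N (Code.prec a b)) = fun N => (GG (mm HH N (encode a)) : ℤ) := by
      funext N
      simp only [vz, vp, xx]
      push_cast
      ring
    rw [h2]
    exact h
  | rfind' a _ => exact Rep.const HH 0 (by decide)

/-- the stage at which the sign is stable -/
def MM (c : Code) : ℕ := 3 * bd c + 2

/-- the zero test -/
def ZZ (c : Code) : Bool := decide ((vp (MM c) c).1 = (vp (MM c) c).2)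

theorem primrec_ZZ : Primrec ZZ := by
  have hM : Primrec MM :=
    Primrec.nat_add.comp (Primrec.nat_mul.comp (Primrec.const 3) primrec_bd) (Primrec.const 2)
  have hv : Primrec fun c => vp (MM c) c := primrec_vp.comp hM Primrec.id
  exact (Primrec.eq.comp (Primrec.fst.comp hv) (Primrec.snd.comp hv)).decide

theorem ZZ_iff (c : Code) : ZZ c = true ↔ vz (MM c) c = 0 := by
  unfold ZZ vz
  rw [decide_eq_true_iff, sub_eq_zero, Nat.cast_inj]

theorem vz_of_ZZ (c : Code) (h : ZZ c = true) (N : ℕ) (hN : MM c ≤ N) : vz N c = 0 :=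
  (rep_vz c).stab HH (MM c) N le_rfl hN ((ZZ_iff c).1 h)

theorem vz_of_not_ZZ (c : Code) (h : ZZ c = false) (N : ℕ) (hN : MM c ≤ N) : vz N c ≠ 0 := by
  intro h0
  have := (rep_vz c).stab HH N (MM c) hN le_rfl h0
  rw [← ZZ_iff, h] at this
  exact absurd this (by decide)

/-- numerator and denominator -/
def nrm : Code → Code × Code
  | .zero => (.zero, .succ)
  | .succ => (.succ, .succ)
  | .left => (.left, .succ)
  | .right => (.zero, .succ)
  | .pair a b => (.pair (.comp (nrm a).1 (nrm b).2) (.comp (nrm b).1 (nrm a).2),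
      .comp (nrm a).2 (nrm b).2)
  | .comp a b => (.comp (nrm a).1 (nrm b).1, .comp (nrm a).2 (nrm b).2)
  | .prec a b => (.prec a b, .succ)
  | .rfind' a => bif ZZ (nrm a).1 then (.zero, .succ) else ((nrm a).2, (nrm a).1)

theorem primrec_nrm : Primrec nrm := by
  have h := primrec_recOn (α := Code) (σ := Code × Code) (c := id) Primrec.id
    (z := fun _ => (Code.zero, Code.succ)) (Primrec.const _)
    (s := fun _ => (Code.succ, Code.succ)) (Primrec.const _)
    (l := fun _ => (Code.left, Code.succ)) (Primrec.const _)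
    (r := fun _ => (Code.zero, Code.succ)) (Primrec.const _)
    (pr := fun _ _ _ x y => (Code.pair (Code.comp x.1 y.2) (Code.comp y.1 x.2),
      Code.comp x.2 y.2))
    (by
      have hx : Primrec fun a : Code × Code × Code × (Code × Code) × (Code × Code) =>
          a.2.2.2.1 := Primrec.fst.comp (Primrec.snd.comp (Primrec.snd.comp Primrec.snd))
      have hy : Primrec fun a : Code × Code × Code × (Code × Code) × (Code × Code) =>
          a.2.2.2.2 := Primrec.snd.comp (Primrec.snd.comp (Primrec.snd.comp Primrec.snd))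
      have hx1 := Primrec.fst.comp hx
      have hx2 := Primrec.snd.comp hx
      have hy1 := Primrec.fst.comp hy
      have hy2 := Primrec.snd.comp hy
      exact Primrec.pair (primrec₂_pair.comp (primrec₂_comp.comp hx1 hy2)
        (primrec₂_comp.comp hy1 hx2)) (primrec₂_comp.comp hx2 hy2))
    (co := fun _ _ _ x y => (Code.comp x.1 y.1, Code.comp x.2 y.2))
    (by
      have hx : Primrec fun a : Code × Code × Code × (Code × Code) × (Code × Code) =>
          a.2.2.2.1 := Primrec.fst.comp (Primrec.snd.comp (Primrec.snd.comp Primrec.snd))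
      have hy : Primrec fun a : Code × Code × Code × (Code × Code) × (Code × Code) =>
          a.2.2.2.2 := Primrec.snd.comp (Primrec.snd.comp (Primrec.snd.comp Primrec.snd))
      exact Primrec.pair (primrec₂_comp.comp (Primrec.fst.comp hx) (Primrec.fst.comp hy))
        (primrec₂_comp.comp (Primrec.snd.comp hx) (Primrec.snd.comp hy)))
    (pc := fun _ a b _ _ => (Code.prec a b, Code.succ))
    (Primrec.pair (primrec₂_prec.comp (Primrec.fst.comp Primrec.snd)
      (Primrec.fst.comp (Primrec.snd.comp Primrec.snd))) (Primrec.const _))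
    (rf := fun _ _ x => bif ZZ x.1 then (Code.zero, Code.succ) else (x.2, x.1))
    (by
      have hx : Primrec fun a : Code × Code × (Code × Code) => a.2.2 :=
        Primrec.snd.comp Primrec.snd
      exact Primrec.cond (primrec_ZZ.comp (Primrec.fst.comp hx)) (Primrec.const _)
        (Primrec.pair (Primrec.snd.comp hx) (Primrec.fst.comp hx)))
  refine Primrec.of_eq h ?_
  intro c
  show (Code.recOn c _ _ _ _ _ _ _ _ : Code × Code) = nrm c
  induction c with
  | zero => rfl
  | succ => rfl
  | left => rfl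
  | right => rfl
  | pair a b iha ihb =>
    show _ = (Code.pair (.comp (nrm a).1 (nrm b).2) (.comp (nrm b).1 (nrm a).2),
      Code.comp (nrm a).2 (nrm b).2)
    rw [← iha, ← ihb]
  | comp a b iha ihb =>
    show _ = (Code.comp (nrm a).1 (nrm b).1, Code.comp (nrm a).2 (nrm b).2)
    rw [← iha, ← ihb]
  | prec a b _ _ => rfl
  | rfind' a ih =>
    show _ = bif ZZ (nrm a).1 then (Code.zero, Code.succ) else ((nrm a).2, (nrm a).1)
    rw [← ih]

end MP_85de51_al
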