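import Mathlib
set_option autoImplicit false

/-!
# Subalgebra membership in one-relator Lie algebras: definitions
-/

namespace MP_85de51_al

/-- The value in the free Lie algebra on `X` of a bracketing of a word in `X`
(an element of the free magma on `X`). -/
noncomputable def lmon (k : Type) [Field k] {X : Type} : FreeMagma X → FreeLieAlgebra k X
  | .of x => FreeLieAlgebra.of k x
  | .mul a b => ⁅lmon k a, lmon k b⁆

/-- The value of a formal finite `k`-linear combination of bracketings. -/
noncomputable def lexp (k : Type) [Field k] {X : Type} (l : List (k × FreeMagma X)) : FreeLieAlgebra k X :=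
  (l.map fun p => p.1 • lmon k p.2).sum

/-- The Lie algebra with generators `X` and the single defining relation `r = 0`:
the quotient of the free Lie algebra by the ideal generated by `r`. -/
abbrev OneRel (k : Type) [Field k] {X : Type} (r : FreeLieAlgebra k X) : Type :=
  FreeLieAlgebra k X ⧸
    (LieSubmodule.lieSpan k (FreeLieAlgebra k X) {r} : LieIdeal k (FreeLieAlgebra k X))

/-- The membership problem of `OneRel k r`: for the input `(u_1, ..., u_m), u`, the image of `u`
lies in the Lie subalgebra generated by the images of `u_1, ..., u_m`. -/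
def Member (k : Type) [Field k] {X : Type} (r : FreeLieAlgebra k X)
    (p : List (List (k × FreeMagma X)) × List (k × FreeMagma X)) : Prop :=
  (LieSubmodule.Quotient.mk (lexp k p.2) : OneRel k r) ∈
    LieSubalgebra.lieSpan k (OneRel k r)
      {x : OneRel k r | ∃ w ∈ p.1, x = LieSubmodule.Quotient.mk (lexp k w)}

/-! ## The relator and the instances -/

/-- generators `s, u, z` -/
def gs : FreeMagma (Fin 3) := .of 0
def gu : FreeMagma (Fin 3) := .of 1
def gz : FreeMagma (Fin 3) := .of 2
/-- `v = [s, u]` -/
def gv : FreeMagma (Fin 3) := gs * gu

/-- the relator `[v, [v, u]]` -/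
noncomputable def rel0 (k : Type) [Field k] : FreeLieAlgebra k (Fin 3) := lmon k (gv * (gv * gu))

/-- the instance with parameter `t` -/
def inst0 (k : Type) [Field k] (t : k) :
    List (List (k × FreeMagma (Fin 3))) × List (k × FreeMagma (Fin 3)) :=
  ([[(1, gs)], [(1, gu)], [(1, gz * gu), (t, gz * gv)],
    [(1, gz * (gu * gv)), (1, (gz * gv) * gv)],
    [(1, (gz * gs) * gu), (-1, gz * gs)]], [(1, gz * gs)])

end MP_85de51_al
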