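import Pool.Agent.Lib.MP_85de51_al.Fld
import Pool.Agent.Lib.MP_85de51_al.Bwd
set_option autoImplicit false

/-!
# Undecidability
-/

namespace MP_85de51_al

open Nat.Partrec (Code)
open Nat.Partrec.Code
open Encodable Denumerable

theorem primrec_inst0 (k : Type) [Field k] [Primcodable k] [Primcodable (FreeMagma (Fin 3))] :
    Primrec (inst0 k) := by
  have h : Primrec fun t : k => [((1 : k), gz * gu), (t, gz * gv)] :=
    Primrec.list_cons.comp (Primrec.const _)
      (Primrec.list_cons.comp (Primrec.pair Primrec.id (Primrec.const _)) (Primrec.const _))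
  exact Primrec.pair (Primrec.list_cons.comp (Primrec.const _)
    (Primrec.list_cons.comp (Primrec.const _) (Primrec.list_cons.comp h (Primrec.const _))))
    (Primrec.const _)

/-- If membership is decidable then the set of natural numbers is decidable in the field. -/
theorem nat_computable (k : Type) [Field k] [CharZero k] [Primcodable k]
    [Primcodable (FreeMagma (Fin 3))]
    (h : ComputablePred fun p : List (List (k × FreeMagma (Fin 3))) × List (k × FreeMagma (Fin 3)) =>
      Member k (rel0 k) p) :
    ComputablePred fun t : k => ∃ n : ℕ, t = n := by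
  obtain ⟨_, h1⟩ := h
  classical
  refine ⟨Classical.decPred _, ?_⟩
  refine (h1.comp (primrec_inst0 k).to_comp).of_eq ?_
  intro t
  simp only [decide_eq_decide]
  exact member_iff t

theorem not_computable_nat : ¬ ComputablePred fun t : KF => ∃ n : ℕ, t = n := by
  intro h
  obtain ⟨_, h1⟩ := h
  apply ComputablePred.halting_problem 0
  classical
  refine ⟨Classical.decPred _, ?_⟩
  refine (h1.comp (primrec_kth.comp Primrec.encode).to_comp).of_eq ?_
  intro c
  simp only [decide_eq_decide]
  rw [kth_iff, ofNat_encode]

/-- a coding of bracketings -/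
def codeM : FreeMagma (Fin 3) → ℕ
  | .of x => 2 * x.1
  | .mul a b => 2 * Nat.pair (codeM a) (codeM b) + 1

theorem codeM_inj : Function.Injective codeM := by
  intro a
  induction a with
  | ih1 x =>
    intro b h
    cases b with
    | of y =>
      have h' : 2 * x.1 = 2 * y.1 := h
      have : x = y := Fin.ext (by omega)
      rw [this]
    | mul c d =>
      have h' : 2 * x.1 = 2 * Nat.pair (codeM c) (codeM d) + 1 := h
      omega
  | ih2 a a' iha iha' =>
    intro b h
    cases b with
    | of y =>
      have h' : 2 * Nat.pair (codeM a) (codeM a') + 1 = 2 * y.1 := h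
      omega
    | mul c d =>
      have h' : 2 * Nat.pair (codeM a) (codeM a') + 1 = 2 * Nat.pair (codeM c) (codeM d) + 1 := h
      have h2 : Nat.pair (codeM a) (codeM a') = Nat.pair (codeM c) (codeM d) := by omega
      obtain ⟨h3, h4⟩ := Nat.pair_eq_pair.1 h2
      rw [iha h3, iha' h4]
      rfl

theorem nonempty_coding : Nonempty (Primcodable (FreeMagma (Fin 3))) := by
  have : Countable (FreeMagma (Fin 3)) := codeM_inj.countable
  have : Infinite (FreeMagma (Fin 3)) := by
    apply Infinite.of_injective (fun n : ℕ => (Nat.rec (FreeMagma.of 0)
      (fun _ w => FreeMagma.mul (FreeMagma.of 0) w) n : FreeMagma (Fin 3)))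
    intro m
    induction m with
    | zero =>
      intro n h
      cases n with
      | zero => rfl
      | succ n => exact absurd h (by simp)
    | succ m ih =>
      intro n h
      cases n with
      | zero => exact absurd h (by simp)
      | succ n =>
        injection h with h1 h2
        rw [ih h2]
  obtain ⟨_⟩ := nonempty_denumerable (FreeMagma (Fin 3))
  exact ⟨Primcodable.ofDenumerable _⟩

end MP_85de51_al
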