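import Pool.Agent.Lib.MP_85de51_al.Comp
set_option autoImplicit false

/-!
# The computable field
-/

namespace MP_85de51_al

open Nat.Partrec (Code)
open Nat.Partrec.Code
open Encodable Denumerable Filter

/-- the ambient ultrapower of the rationals -/
abbrev GQ : Type := Germ ((hyperfilter ℕ : Ultrafilter ℕ) : Filter ℕ) ℚ

/-- the limit of the `i`-th variable -/
noncomputable def th (i : ℕ) : GQ := ((fun N => (xx N i : ℚ) : ℕ → ℚ) : GQ)

/-- the limit of the value of a term -/
noncomputable def ge (c : Code) : GQ := ((fun N => (vz N c : ℚ) : ℕ → ℚ) : GQ)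

/-- the value of a term in the field -/
noncomputable def fev : Code → GQ
  | .zero => 0
  | .succ => 1
  | .left => -1
  | .right => 0
  | .pair a b => fev a + fev b
  | .comp a b => fev a * fev b
  | .prec a _ => th (encode a)
  | .rfind' a => (fev a)⁻¹

theorem ev_hyper {p : ℕ → Prop} (M : ℕ) (h : ∀ N, M ≤ N → p N) :
    ∀ᶠ N in ((hyperfilter ℕ : Ultrafilter ℕ) : Filter ℕ), p N := by
  apply Filter.Eventually.filter_mono (Nat.hyperfilter_le_atTop)
  exact Filter.eventually_atTop.2 ⟨M, h⟩

theorem ge_eq_zero_iff (c : Code) : ge c = 0 ↔ ZZ c = true := by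
  constructor
  · intro h
    by_contra hc
    rw [Bool.not_eq_true] at hc
    have h1 : ∀ᶠ N in ((hyperfilter ℕ : Ultrafilter ℕ) : Filter ℕ), (vz N c : ℚ) = 0 :=
      Germ.coe_eq.1 h
    have h2 := ev_hyper (MM c) (fun N hN => vz_of_not_ZZ c hc N hN)
    obtain ⟨N, h3, h4⟩ := (h1.and h2).exists
    exact h4 (by exact_mod_cast h3)
  · intro h
    apply Germ.coe_eq.2
    have h2 := ev_hyper (MM c) (fun N hN => vz_of_ZZ c h N hN)
    filter_upwards [h2] with N hN
    rw [hN]
    simp

theorem ge_pair (a b : Code) : ge (.pair a b) = ge a + ge b := by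
  unfold ge
  rw [← Germ.coe_add]
  congr 1
  funext N
  simp only [vz, vp, Pi.add_apply]
  push_cast
  ring

theorem ge_comp (a b : Code) : ge (.comp a b) = ge a * ge b := by
  unfold ge
  rw [← Germ.coe_mul]
  congr 1
  funext N
  simp only [vz, vp, Pi.mul_apply]
  push_cast
  ring

theorem ge_zero : ge .zero = 0 := by
  unfold ge
  have : (fun N => (vz N .zero : ℚ)) = fun _ => 0 := by
    funext N
    simp [vz, vp]
  rw [this]
  rfl

theorem ge_succ : ge .succ = 1 := by
  unfold ge
  have : (fun N => (vz N .succ : ℚ)) = fun _ => 1 := by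
    funext N
    simp [vz, vp]
  rw [this]
  rfl

theorem ge_left : ge .left = -1 := by
  unfold ge
  have : (fun N => (vz N .left : ℚ)) = fun _ => -1 := by
    funext N
    simp [vz, vp]
  rw [this]
  rfl

theorem ge_prec (a b : Code) : ge (.prec a b) = th (encode a) := by
  have h : (fun N => (vz N (.prec a b) : ℚ)) = fun N => (xx N (encode a) : ℚ) := by
    funext N
    simp [vz, vp]
  unfold ge th
  rw [h]

theorem nrm_spec (c : Code) : ge (nrm c).2 ≠ 0 ∧ fev c = ge (nrm c).1 / ge (nrm c).2 := by
  induction c with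
  | zero => exact ⟨by show ge .succ ≠ 0; rw [ge_succ]; exact one_ne_zero,
      by show (0 : GQ) = ge .zero / ge .succ; rw [ge_succ, ge_zero]; simp⟩
  | succ => exact ⟨by show ge .succ ≠ 0; rw [ge_succ]; exact one_ne_zero,
      by show (1 : GQ) = ge .succ / ge .succ; rw [ge_succ]; simp⟩
  | left => exact ⟨by show ge .succ ≠ 0; rw [ge_succ]; exact one_ne_zero,
      by show (-1 : GQ) = ge .left / ge .succ; rw [ge_succ, ge_left]; simp⟩
  | right => exact ⟨by show ge .succ ≠ 0; rw [ge_succ]; exact one_ne_zero,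
      by show (0 : GQ) = ge .zero / ge .succ; rw [ge_succ, ge_zero]; simp⟩
  | pair a b iha ihb =>
    obtain ⟨h1, h2⟩ := iha
    obtain ⟨h3, h4⟩ := ihb
    constructor
    · show ge (.comp (nrm a).2 (nrm b).2) ≠ 0
      rw [ge_comp]
      exact mul_ne_zero h1 h3
    · show fev a + fev b = ge (.pair (.comp (nrm a).1 (nrm b).2) (.comp (nrm b).1 (nrm a).2)) /
        ge (.comp (nrm a).2 (nrm b).2)
      rw [ge_pair, ge_comp, ge_comp, ge_comp, h2, h4]
      field_simp
  | comp a b iha ihb =>
    obtain ⟨h1, h2⟩ := iha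
    obtain ⟨h3, h4⟩ := ihb
    constructor
    · show ge (.comp (nrm a).2 (nrm b).2) ≠ 0
      rw [ge_comp]
      exact mul_ne_zero h1 h3
    · show fev a * fev b = ge (.comp (nrm a).1 (nrm b).1) / ge (.comp (nrm a).2 (nrm b).2)
      rw [ge_comp, ge_comp, h2, h4]
      field_simp
  | prec a b _ _ =>
    constructor
    · show ge .succ ≠ 0
      rw [ge_succ]
      exact one_ne_zero
    · show th (encode a) = ge (.prec a b) / ge .succ
      rw [ge_succ, ge_prec]
      simp
  | rfind' a ih =>
    obtain ⟨h1, h2⟩ := ih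
    cases hz : ZZ (nrm a).1 with
    | true =>
      have e : nrm (.rfind' a) = (Code.zero, Code.succ) := by
        show (bif ZZ (nrm a).1 then (Code.zero, Code.succ) else ((nrm a).2, (nrm a).1)) = _
        rw [hz]
        rfl
      rw [e]
      refine ⟨by show ge .succ ≠ 0; rw [ge_succ]; exact one_ne_zero, ?_⟩
      show (fev a)⁻¹ = ge .zero / ge .succ
      rw [h2, (ge_eq_zero_iff _).2 hz, ge_zero]
      simp
    | false =>
      have e : nrm (.rfind' a) = ((nrm a).2, (nrm a).1) := by
        show (bif ZZ (nrm a).1 then (Code.zero, Code.succ) else ((nrm a).2, (nrm a).1)) = _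
        rw [hz]
        rfl
      rw [e]
      have h3 : ge (nrm a).1 ≠ 0 := by
        rw [Ne, ge_eq_zero_iff, hz]
        decide
      refine ⟨h3, ?_⟩
      show (fev a)⁻¹ = ge (nrm a).2 / ge (nrm a).1
      rw [h2, inv_div]

theorem fev_eq_zero_iff (c : Code) : fev c = 0 ↔ ZZ (nrm c).1 = true := by
  obtain ⟨h1, h2⟩ := nrm_spec c
  rw [h2, div_eq_zero_iff, ← ge_eq_zero_iff]
  tauto

/-- the equality test -/
def EE (c c' : Code) : Bool := ZZ (nrm (.pair c (.comp .left c'))).1

theorem EE_iff (c c' : Code) : EE c c' = true ↔ fev c = fev c' := by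
  unfold EE
  rw [← fev_eq_zero_iff]
  show fev c + -1 * fev c' = 0 ↔ _
  rw [neg_one_mul, ← sub_eq_add_neg, sub_eq_zero]

theorem primrec_EE : Primrec₂ EE :=
  primrec_ZZ.comp (Primrec.fst.comp (primrec_nrm.comp
    (primrec₂_pair.comp Primrec.fst (primrec₂_comp.comp (Primrec.const Code.left) Primrec.snd))))

/-- the predicate used for the search of the least index -/
def PP (n r : ℕ) : Prop := EE (ofNat Code (n - r)) (ofNat Code n) = true

instance : DecidableRel PP := fun n r => by
  unfold PP
  infer_instance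

/-- the least index with the same value -/
def LL (n : ℕ) : ℕ := n - Nat.findGreatest (PP n) n

theorem primrec_LL : Primrec LL := by
  have h : PrimrecRel PP := by
    have h1 : Primrec₂ fun n r : ℕ => EE (ofNat Code (n - r)) (ofNat Code n) :=
      primrec_EE.comp ((Primrec.ofNat Code).comp (Primrec.nat_sub.comp Primrec.fst Primrec.snd))
        ((Primrec.ofNat Code).comp Primrec.fst)
    exact Primrec.eq.comp h1 (Primrec.const true)
  exact Primrec.nat_sub.comp Primrec.id (Primrec.nat_findGreatest Primrec.id h)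

theorem LL_le (n : ℕ) : LL n ≤ n := Nat.sub_le _ _

theorem LL_spec (n : ℕ) : fev (ofNat Code (LL n)) = fev (ofNat Code n) := by
  rw [← EE_iff]
  have h0 : PP n 0 := by
    show EE (ofNat Code (n - 0)) (ofNat Code n) = true
    rw [EE_iff, Nat.sub_zero]
  exact Nat.findGreatest_spec (P := PP n) (m := 0) (Nat.zero_le n) h0

theorem LL_min (n m : ℕ) (h : m < LL n) : fev (ofNat Code m) ≠ fev (ofNat Code n) := by
  intro he
  have hle := LL_le n
  have h1 : PP n (n - m) := by
    show EE (ofNat Code (n - (n - m))) (ofNat Code n) = true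
    rw [EE_iff, show n - (n - m) = m by omega, he]
  have h2 : Nat.findGreatest (PP n) n < n - m := by
    unfold LL at h
    omega
  exact Nat.findGreatest_is_greatest h2 (Nat.sub_le _ _) h1

/-- The field. -/
noncomputable def KF : Subfield GQ where
  carrier := Set.range fev
  mul_mem' := by
    rintro _ _ ⟨a, rfl⟩ ⟨b, rfl⟩
    exact ⟨.comp a b, rfl⟩
  one_mem' := ⟨.succ, rfl⟩
  add_mem' := by
    rintro _ _ ⟨a, rfl⟩ ⟨b, rfl⟩
    exact ⟨.pair a b, rfl⟩
  zero_mem' := ⟨.zero, rfl⟩
  neg_mem' := by
    rintro _ ⟨a, rfl⟩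
    exact ⟨.comp .left a, by show -1 * fev a = _; rw [neg_one_mul]⟩
  inv_mem' := by
    rintro _ ⟨a, rfl⟩
    exact ⟨.rfind' a, rfl⟩

/-- the value of a term as an element of the field -/
noncomputable def kev (c : Code) : KF := ⟨fev c, c, rfl⟩

theorem kev_surj : Function.Surjective kev := by
  rintro ⟨x, c, rfl⟩
  exact ⟨c, rfl⟩

theorem kev_eq_iff (c c' : Code) : kev c = kev c' ↔ fev c = fev c' := by
  unfold kev
  rw [Subtype.mk.injEq]

theorem exists_ix (x : KF) : ∃ n, kev (ofNat Code n) = x := by
  obtain ⟨c, rfl⟩ := kev_surj x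
  exact ⟨encode c, by rw [ofNat_encode]⟩

/-- the index of an element: the least index of a term with that value -/
noncomputable def ix (x : KF) : ℕ := by
  classical exact Nat.find (exists_ix x)

theorem ix_spec (x : KF) : kev (ofNat Code (ix x)) = x := by
  classical exact Nat.find_spec (exists_ix x)

theorem ix_min (x : KF) (m : ℕ) (h : kev (ofNat Code m) = x) : ix x ≤ m := by
  classical exact Nat.find_min' (exists_ix x) h

theorem ix_kev (n : ℕ) : ix (kev (ofNat Code n)) = LL n := by
  apply le_antisymm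
  · exact ix_min _ _ ((kev_eq_iff _ _).2 (LL_spec n))
  · by_contra h
    push Not at h
    exact LL_min n _ h ((kev_eq_iff _ _).1 (ix_spec (kev (ofNat Code n))))

noncomputable instance encKF : Encodable KF where
  encode := ix
  decode n := if LL n = n then some (kev (ofNat Code n)) else none
  encodek x := by
    have h1 : LL (ix x) = ix x := by
      rw [← ix_kev, ix_spec]
    rw [if_pos h1, ix_spec]

theorem encode_KF (x : KF) : encode x = ix x := rfl

noncomputable instance primKF : Primcodable KF where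
  prim := by
    have h : Primrec fun n : ℕ => if LL n = n then n + 1 else 0 :=
      Primrec.ite (Primrec.eq.comp primrec_LL Primrec.id) Primrec.succ (Primrec.const 0)
    refine (Primrec.nat_iff.1 h).of_eq ?_
    intro n
    show _ = encode (if LL n = n then some (kev (ofNat Code n)) else none)
    split_ifs with h1
    · rw [encode_some]
      show n + 1 = (ix (kev (ofNat Code n))) + 1
      rw [ix_kev, h1]
    · rfl

theorem primrec_kev : Primrec kev := by
  rw [← Primrec.encode_iff]
  refine (primrec_LL.comp Primrec.encode).of_eq ?_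
  intro c
  show LL (encode c) = ix (kev c)
  rw [← ix_kev, ofNat_encode]

/-- a term for an element -/
noncomputable def rp (x : KF) : Code := ofNat Code (encode x)

theorem kev_rp (x : KF) : kev (rp x) = x := ix_spec x

theorem primrec_rp : Primrec rp := (Primrec.ofNat Code).comp Primrec.encode

theorem primrec_add : Primrec₂ (fun x y : KF => x + y) := by
  have h : Primrec₂ fun x y : KF => kev (.pair (rp x) (rp y)) :=
    primrec_kev.comp (primrec₂_pair.comp (primrec_rp.comp Primrec.fst) (primrec_rp.comp Primrec.snd))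
  refine h.of_eq ?_
  intro x y
  have e : kev (.pair (rp x) (rp y)) = kev (rp x) + kev (rp y) := rfl
  rw [e, kev_rp, kev_rp]

theorem primrec_mul : Primrec₂ (fun x y : KF => x * y) := by
  have h : Primrec₂ fun x y : KF => kev (.comp (rp x) (rp y)) :=
    primrec_kev.comp (primrec₂_comp.comp (primrec_rp.comp Primrec.fst) (primrec_rp.comp Primrec.snd))
  refine h.of_eq ?_
  intro x y
  have e : kev (.comp (rp x) (rp y)) = kev (rp x) * kev (rp y) := rfl
  rw [e, kev_rp, kev_rp]

theorem primrec_neg : Primrec (fun x : KF => -x) := by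
  have h : Primrec fun x : KF => (kev .left) * x :=
    primrec_mul.comp (Primrec.const _) Primrec.id
  refine h.of_eq ?_
  intro x
  have e : kev .left = -1 := rfl
  rw [e, neg_one_mul]

theorem primrec_inv : Primrec (fun x : KF => x⁻¹) := by
  have h : Primrec fun x : KF => kev (.rfind' (rp x)) :=
    primrec_kev.comp (primrec_rfind'.comp primrec_rp)
  refine h.of_eq ?_
  intro x
  have e : kev (.rfind' (rp x)) = (kev (rp x))⁻¹ := rfl
  rw [e, kev_rp]

theorem charZero_KF : CharZero KF := by
  have h : CharZero GQ := by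
    constructor
    intro m n h
    have h1 : ((fun _ => (m : ℚ) : ℕ → ℚ) : GQ) = ((fun _ => (n : ℚ) : ℕ → ℚ) : GQ) := h
    have h2 : ∀ᶠ _ in ((hyperfilter ℕ : Ultrafilter ℕ) : Filter ℕ), (m : ℚ) = (n : ℚ) :=
      Germ.coe_eq.1 h1
    exact_mod_cast h2.exists.choose_spec
  constructor
  intro m n h
  have h1 : ((m : KF) : GQ) = ((n : KF) : GQ) := by rw [h]
  push_cast at h1
  exact_mod_cast h1

/-! ## The natural numbers in the field -/

theorem xx_gt (N i : ℕ) : tau HH i N < xx N i :=
  lt_of_le_of_lt (Nat.right_le_pair _ _) (GG_gt _)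

theorem th_halt (i s : ℕ) (h : HH i (tau HH i s) = true) : th i = ((xx s i : ℕ) : GQ) := by
  have : ((xx s i : ℕ) : GQ) = ((fun _ => (xx s i : ℚ) : ℕ → ℚ) : GQ) := rfl
  rw [this]
  apply Germ.coe_eq.2
  have h2 := ev_hyper s (fun N hN => tau_stop HH i s h N hN)
  filter_upwards [h2] with N hN
  have : xx N i = xx s i := by
    unfold xx mm
    rw [hN]
  rw [this]

theorem th_not_halt (i : ℕ) (h : ∀ s, HH i s = false) (n : ℕ) : th i ≠ (n : GQ) := by
  intro he
  have e : ((n : ℕ) : GQ) = ((fun _ => (n : ℚ) : ℕ → ℚ) : GQ) := rfl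
  rw [e] at he
  have h1 : ∀ᶠ N in ((hyperfilter ℕ : Ultrafilter ℕ) : Filter ℕ), (xx N i : ℚ) = (n : ℚ) :=
    Germ.coe_eq.1 he
  have h2 := ev_hyper (p := fun N => n ≤ N) n (fun N hN => hN)
  obtain ⟨N, h3, h4⟩ := (h1.and h2).exists
  have h5 : xx N i = n := by exact_mod_cast h3
  have h6 := xx_gt N i
  have h7 : tau HH i N = N := by
    rcases tau_alt HH i N with h8 | h8
    · exact h8
    · rw [h] at h8
      exact absurd h8 (by decide)
  omega

/-- the element attached to the `i`-th machine -/
noncomputable def kth (i : ℕ) : KF := kev (.prec (ofNat Code i) .zero)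

theorem primrec_kth : Primrec kth :=
  primrec_kev.comp (primrec₂_prec.comp (Primrec.ofNat Code) (Primrec.const _))

theorem kth_coe (i : ℕ) : (kth i : GQ) = th i := by
  show th (encode (ofNat Code i)) = th i
  rw [encode_ofNat]

theorem kth_iff (i : ℕ) : (∃ n : ℕ, kth i = n) ↔ (eval (ofNat Code i) 0).Dom := by
  constructor
  · rintro ⟨n, hn⟩
    by_contra hc
    apply th_not_halt i ?_ n
    · rw [← kth_coe, hn]
      rfl
    · intro s
      by_contra hs
      rw [Bool.not_eq_false] at hs
      apply hc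
      obtain ⟨x, hx⟩ := Option.isSome_iff_exists.1 hs
      have : x ∈ eval (ofNat Code i) 0 := evaln_complete.2 ⟨s, hx⟩
      exact Part.dom_iff_mem.2 ⟨x, this⟩
  · intro h
    obtain ⟨x, hx⟩ := Part.dom_iff_mem.1 h
    obtain ⟨s, hs⟩ := evaln_complete.1 hx
    have hstop : ∃ s', HH i (tau HH i s') = true := by
      by_contra hc
      push Not at hc
      have h1 : tau HH i s = s := by
        rcases tau_alt HH i s with h8 | h8
        · exact h8
        · exact absurd h8 (hc s)
      apply hc s
      rw [h1]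
      exact Option.isSome_iff_exists.2 ⟨x, hs⟩
    obtain ⟨s', hs'⟩ := hstop
    refine ⟨xx s' i, ?_⟩
    apply Subtype.ext
    rw [kth_coe, th_halt i s' hs']
    rfl

end MP_85de51_al
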