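import Pool.Agent.Lib.MP_85de51_al.Sep
set_option autoImplicit false

/-!
# Stability of the vanishing of a polynomial at the approximations
-/

namespace MP_85de51_al

/-- the stage counter -/
def tau (H : ℕ → ℕ → Bool) (i : ℕ) : ℕ → ℕ
  | 0 => 0
  | (N + 1) => if H i (tau H i N) then tau H i N else tau H i N + 1

/-- the index of the value of the `i`-th variable at stage `N` -/
def mm (H : ℕ → ℕ → Bool) (N i : ℕ) : ℕ := Nat.pair i (tau H i N)

variable (H : ℕ → ℕ → Bool)

theorem tau_alt (i N : ℕ) : tau H i N = N ∨ H i (tau H i N) = true := by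
  induction N with
  | zero => left; rfl
  | succ N ih =>
    by_cases h : H i (tau H i N) = true
    · right
      have : tau H i (N + 1) = tau H i N := by simp [tau, h]
      rw [this, h]
    · rcases ih with ih | ih
      · left
        have : tau H i (N + 1) = tau H i N + 1 := by simp [tau, h]
        rw [this, ih]
      · exact absurd ih h

theorem tau_stop (i N : ℕ) (h : H i (tau H i N) = true) (N' : ℕ) (hN : N ≤ N') :
    tau H i N' = tau H i N := by
  induction N', hN using Nat.le_induction with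
  | base => rfl
  | succ n hn ih =>
    have : H i (tau H i n) = true := by rw [ih, h]
    have h2 : tau H i (n + 1) = tau H i n := by simp [tau, this]
    rw [h2, ih]

theorem tau_mono (i : ℕ) : Monotone (tau H i) :=
  monotone_nat_of_le_succ fun N => by
    show tau H i N ≤ if H i (tau H i N) then tau H i N else tau H i N + 1
    split_ifs <;> omega

theorem tau_const (i M : ℕ) (h : tau H i M < M) (N : ℕ) (hN : M ≤ N) : tau H i N = tau H i M := by
  rcases tau_alt H i M with h1 | h1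
  · omega
  · exact tau_stop H i M h1 N hN

theorem mm_inj (N : ℕ) : Function.Injective (mm H N) := by
  intro i j h
  exact (Nat.pair_eq_pair.1 h).1

theorem mm_mono (i : ℕ) : Monotone (fun N => mm H N i) := by
  intro N N' h
  show Nat.pair i (tau H i N) ≤ Nat.pair i (tau H i N')
  rcases (tau_mono H i h).lt_or_eq with h1 | h1
  · exact (Nat.pair_lt_pair_right i h1).le
  · rw [h1]

theorem mm_const (i M : ℕ) (h : mm H M i < M) (N : ℕ) (hN : M ≤ N) : mm H N i = mm H M i := by
  have h1 : tau H i M ≤ mm H M i := Nat.right_le_pair _ _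
  show Nat.pair i (tau H i N) = Nat.pair i (tau H i M)
  rw [tau_const H i M (by omega) N hN]

/-- `f` is given by a polynomial with coefficients of total size `≤ B` and total degree `≤ B` -/
def Rep (f : ℕ → ℤ) (B : ℕ) : Prop :=
  ∃ (ι : Type) (_ : Fintype ι) (a : ι → ℤ) (δ : ι → ℕ →₀ ℕ),
    (∑ j, (a j).natAbs ≤ B) ∧ (∀ j, tdeg (δ j) ≤ B) ∧
      ∀ N, f N = ∑ j, a j * (wt (mm H N) (δ j) : ℤ)

theorem tdeg_filter_le (p : ℕ → Prop) [DecidablePred p] (δ : ℕ →₀ ℕ) :
    tdeg (δ.filter p) ≤ tdeg δ := by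
  rw [tdeg_eq (δ.filter p) δ.support (by
    rw [Finsupp.support_filter]
    exact Finset.filter_subset _ _), tdeg_eq δ δ.support subset_rfl]
  apply Finset.sum_le_sum
  intro i _
  rw [Finsupp.filter_apply]
  split_ifs <;> omega

theorem wt_early_le (m : ℕ → ℕ) (M B : ℕ) (δ : ℕ →₀ ℕ) (h : ∀ i ∈ δ.support, m i < M)
    (hB : tdeg δ ≤ B) : wt m δ ≤ GG (M - 1) ^ B := by
  calc wt m δ = ∏ i ∈ δ.support, GG (m i) ^ δ i := rfl
    _ ≤ ∏ i ∈ δ.support, GG (M - 1) ^ δ i := by
      apply Finset.prod_le_prod'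
      intro i hi
      exact Nat.pow_le_pow_left (GG_mono (by have := h i hi; omega)) _
    _ = GG (M - 1) ^ ∑ i ∈ δ.support, δ i := Finset.prod_pow_eq_pow_sum _ _ _
    _ ≤ GG (M - 1) ^ B := Nat.pow_le_pow_right (by have := GG_two (M - 1); omega) hB

theorem Rep.stab {f : ℕ → ℤ} {B : ℕ} (hf : Rep H f B) (N N' : ℕ) (hN : 3 * B + 2 ≤ N)
    (hN' : 3 * B + 2 ≤ N') (h0 : f N = 0) : f N' = 0 := by
  classical
  obtain ⟨ι, _, a, δ, h1, h2, h3⟩ := hf
  set M := 3 * B + 2 with hM
  set late : (ℕ →₀ ℕ) → (ℕ →₀ ℕ) := fun d => d.filter (fun i => M ≤ mm H M i) with hlate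
  set early : (ℕ →₀ ℕ) → (ℕ →₀ ℕ) := fun d => d.filter (fun i => ¬ M ≤ mm H M i) with hearly
  have hsplit : ∀ (m : ℕ → ℕ) (d : ℕ →₀ ℕ), wt m d = wt m (late d) * wt m (early d) := by
    intro m d
    exact (Finsupp.prod_filter_mul_prod_filter_not _ _ _).symm
  have hearlyi : ∀ d : ℕ →₀ ℕ, ∀ i ∈ (early d).support, mm H M i < M := by
    intro d i hi
    rw [hearly] at hi
    simp only [Finsupp.support_filter, Finset.mem_filter, not_le] at hi
    exact hi.2
  have hlatei : ∀ d : ℕ →₀ ℕ, ∀ i ∈ (late d).support, M ≤ mm H M i := by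
    intro d i hi
    rw [hlate] at hi
    simp only [Finsupp.support_filter, Finset.mem_filter] at hi
    exact hi.2
  have hconst : ∀ (K : ℕ), M ≤ K → ∀ d : ℕ →₀ ℕ, wt (mm H K) (early d) = wt (mm H M) (early d) := by
    intro K hK d
    unfold wt
    apply Finsupp.prod_congr
    intro i hi
    rw [mm_const H i M (hearlyi d i hi) K hK]
  set Δ : Finset (ℕ →₀ ℕ) := Finset.univ.image (fun j => late (δ j)) with hΔ
  set C : (ℕ →₀ ℕ) → ℤ := fun ε =>
    ∑ j ∈ Finset.univ.filter (fun j => late (δ j) = ε), a j * (wt (mm H M) (early (δ j)) : ℤ) with hC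
  have hfK : ∀ K, M ≤ K → f K = ∑ ε ∈ Δ, C ε * (wt (mm H K) ε : ℤ) := by
    intro K hK
    rw [h3 K, ← Finset.sum_fiberwise_of_maps_to (g := fun j => late (δ j)) (t := Δ)
      (fun j _ => Finset.mem_image_of_mem _ (Finset.mem_univ j))]
    apply Finset.sum_congr rfl
    intro ε _
    rw [hC]
    simp only
    rw [Finset.sum_mul]
    apply Finset.sum_congr rfl
    intro j hj
    rw [Finset.mem_filter] at hj
    rw [hsplit (mm H K) (δ j), hconst K hK (δ j), hj.2]
    push_cast
    ring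
  have hSum : ∑ ε ∈ Δ, (C ε).natAbs ≤ B * GG (M - 1) ^ B := by
    calc ∑ ε ∈ Δ, (C ε).natAbs
        ≤ ∑ ε ∈ Δ, ∑ j ∈ Finset.univ.filter (fun j => late (δ j) = ε),
          (a j).natAbs * GG (M - 1) ^ B := by
          apply Finset.sum_le_sum
          intro ε _
          refine le_trans (Int.natAbs_sum_le _ _) ?_
          apply Finset.sum_le_sum
          intro j _
          rw [Int.natAbs_mul, Int.natAbs_natCast]
          apply Nat.mul_le_mul_left
          apply wt_early_le _ _ _ _ (hearlyi (δ j))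
          exact (tdeg_filter_le _ _).trans (h2 j)
      _ = ∑ j, (a j).natAbs * GG (M - 1) ^ B :=
          Finset.sum_fiberwise_of_maps_to (g := fun j => late (δ j)) (t := Δ)
            (fun j _ => Finset.mem_image_of_mem _ (Finset.mem_univ j)) _
      _ = (∑ j, (a j).natAbs) * GG (M - 1) ^ B := by rw [Finset.sum_mul]
      _ ≤ B * GG (M - 1) ^ B := Nat.mul_le_mul_right _ h1
  have hC0 : ∀ ε ∈ Δ, C ε = 0 := by
    apply dom_zero Δ C (wt (mm H N)) (B * GG (M - 1) ^ B) hSum ?_ (fun ε _ => wt_pos _ _)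
      (by rw [← hfK N hN, h0])
    intro ε hε ε' hε' hne
    rw [hΔ, Finset.mem_image] at hε hε'
    obtain ⟨j, _, rfl⟩ := hε
    obtain ⟨j', _, rfl⟩ := hε'
    apply sep (mm H N) (mm_inj H N) B B M (by omega) _ _ ((tdeg_filter_le _ _).trans (h2 j))
      ((tdeg_filter_le _ _).trans (h2 j')) ?_ ?_ hne
    · intro i hi
      exact (hlatei (δ j) i hi).trans (mm_mono H i hN)
    · intro i hi
      exact (hlatei (δ j') i hi).trans (mm_mono H i hN)
  rw [hfK N' hN']
  apply Finset.sum_eq_zero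
  intro ε hε
  rw [hC0 ε hε, zero_mul]

/-! ## Closure properties -/

theorem wt_zero (m : ℕ → ℕ) : wt m 0 = 1 := Finsupp.prod_zero_index

theorem wt_add (m : ℕ → ℕ) (δ δ' : ℕ →₀ ℕ) : wt m (δ + δ') = wt m δ * wt m δ' :=
  Finsupp.prod_add_index' (fun _ => pow_zero _) (fun _ _ _ => pow_add _ _ _)

theorem wt_single (m : ℕ → ℕ) (i : ℕ) : wt m (Finsupp.single i 1) = GG (m i) := by
  unfold wt
  rw [Finsupp.prod_single_index (h := fun i e => GG (m i) ^ e) (pow_zero _), pow_one]

theorem tdeg_zero : tdeg 0 = 0 := Finsupp.sum_zero_index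

theorem tdeg_add (δ δ' : ℕ →₀ ℕ) : tdeg (δ + δ') = tdeg δ + tdeg δ' :=
  Finsupp.sum_add_index' (fun _ => rfl) (fun _ _ _ => rfl)

theorem tdeg_single (i : ℕ) : tdeg (Finsupp.single i 1) = 1 := Finsupp.sum_single_index rfl

theorem Rep.const (z : ℤ) (hz : z.natAbs ≤ 1) : Rep H (fun _ => z) 1 := by
  refine ⟨Unit, inferInstance, fun _ => z, fun _ => 0, ?_, ?_, ?_⟩
  · simpa using hz
  · intro _
    rw [tdeg_zero]
    omega
  · intro N
    simp [wt_zero]

theorem Rep.var (i : ℕ) : Rep H (fun N => (GG (mm H N i) : ℤ)) 1 := by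
  refine ⟨Unit, inferInstance, fun _ => 1, fun _ => Finsupp.single i 1, ?_, ?_, ?_⟩
  · simp
  · intro _
    rw [tdeg_single]
  · intro N
    simp [wt_single]

theorem Rep.add {f g : ℕ → ℤ} {B B' : ℕ} (hf : Rep H f B) (hg : Rep H g B') :
    Rep H (fun N => f N + g N) (B + B') := by
  obtain ⟨ι, _, a, δ, h1, h2, h3⟩ := hf
  obtain ⟨κ, _, b, ε, h1', h2', h3'⟩ := hg
  refine ⟨ι ⊕ κ, inferInstance, Sum.elim a b, Sum.elim δ ε, ?_, ?_, ?_⟩
  · rw [Fintype.sum_sum_type]
    simp only [Sum.elim_inl, Sum.elim_inr]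
    omega
  · rintro (j | j)
    · have := h2 j
      simp only [Sum.elim_inl]
      omega
    · have := h2' j
      simp only [Sum.elim_inr]
      omega
  · intro N
    rw [Fintype.sum_sum_type]
    simp only [Sum.elim_inl, Sum.elim_inr]
    rw [h3 N, h3' N]

theorem Rep.mul {f g : ℕ → ℤ} {B B' : ℕ} (hf : Rep H f B) (hg : Rep H g B') :
    Rep H (fun N => f N * g N) (B * B' + B + B') := by
  obtain ⟨ι, _, a, δ, h1, h2, h3⟩ := hf
  obtain ⟨κ, _, b, ε, h1', h2', h3'⟩ := hg
  refine ⟨ι × κ, inferInstance, fun p => a p.1 * b p.2, fun p => δ p.1 + ε p.2, ?_, ?_, ?_⟩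
  · rw [Fintype.sum_prod_type]
    simp only [Int.natAbs_mul]
    simp only [← Finset.mul_sum]
    rw [← Finset.sum_mul]
    have := Nat.mul_le_mul h1 h1'
    omega
  · rintro ⟨j, j'⟩
    have := h2 j
    have := h2' j'
    simp only [tdeg_add]
    nlinarith
  · intro N
    rw [Fintype.sum_prod_type]
    simp only [wt_add]
    rw [h3 N, h3' N, Finset.sum_mul_sum]
    apply Finset.sum_congr rfl
    intro j _
    apply Finset.sum_congr rfl
    intro j' _
    push_cast
    ring

end MP_85de51_al
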