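import Mathlib
set_option autoImplicit false

/-!
# Fast growing values separate monomials
-/

namespace MP_85de51_al

/-- a fast growing function -/
def GG : ℕ → ℕ
  | 0 => 2
  | (m + 1) => GG m ^ (m + 2)

theorem GG_two : ∀ m, 2 ≤ GG m
  | 0 => le_rfl
  | (m + 1) => (GG_two m).trans (Nat.le_self_pow (by omega) _)

theorem GG_gt : ∀ m, m < GG m
  | 0 => by decide
  | (m + 1) => by
    have h1 : 2 ^ (m + 2) ≤ GG m ^ (m + 2) := Nat.pow_le_pow_left (GG_two m) _
    have h2 : m + 2 < 2 ^ (m + 2) := Nat.lt_two_pow_self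
    show m + 1 < GG m ^ (m + 2)
    omega

theorem GG_mono : Monotone GG :=
  monotone_nat_of_le_succ fun _ => Nat.le_self_pow (by omega) _

theorem GG_key {B D M μ : ℕ} (hM : B + 2 * D + 2 ≤ M) (hμ : M ≤ μ) :
    B * GG (M - 1) ^ D * GG (μ - 1) ^ D < GG μ := by
  obtain ⟨ν, rfl⟩ : ∃ ν, μ = ν + 1 := ⟨μ - 1, by omega⟩
  rw [Nat.add_sub_cancel]
  have h1 : B ≤ GG ν := by
    have := GG_gt ν
    omega
  have h2 : GG (M - 1) ≤ GG ν := GG_mono (by omega)
  calc B * GG (M - 1) ^ D * GG ν ^ D ≤ GG ν * GG ν ^ D * GG ν ^ D := by gcongr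
    _ = GG ν ^ (2 * D + 1) := by ring
    _ < GG ν ^ (ν + 2) := Nat.pow_lt_pow_right (by have := GG_two ν; omega) (by omega)
    _ = GG (ν + 1) := rfl

/-- weight of a monomial -/
noncomputable def wt (m : ℕ → ℕ) (δ : ℕ →₀ ℕ) : ℕ := δ.prod fun i e => GG (m i) ^ e

theorem wt_pos (m : ℕ → ℕ) (δ : ℕ →₀ ℕ) : 0 < wt m δ :=
  Nat.pos_of_ne_zero (Finset.prod_ne_zero_iff.2 fun i _ => by
    have := GG_two (m i)
    positivity)

/-- total degree -/
noncomputable def tdeg (δ : ℕ →₀ ℕ) : ℕ := δ.sum fun _ e => e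

theorem wt_eq (m : ℕ → ℕ) (δ : ℕ →₀ ℕ) (F : Finset ℕ) (h : δ.support ⊆ F) :
    wt m δ = ∏ i ∈ F, GG (m i) ^ δ i :=
  Finsupp.prod_of_support_subset δ h _ (fun _ _ => pow_zero _)

theorem tdeg_eq (δ : ℕ →₀ ℕ) (F : Finset ℕ) (h : δ.support ⊆ F) :
    tdeg δ = ∑ i ∈ F, δ i :=
  Finsupp.sum_of_support_subset δ h _ (fun _ _ => rfl)

theorem sep_half (m : ℕ → ℕ) (hm : Function.Injective m) (B D M : ℕ) (hM : B + 2 * D + 2 ≤ M)
    (δ δ' : ℕ →₀ ℕ) (hδ : tdeg δ ≤ D) (F : Finset ℕ) (h : δ.support ⊆ F) (h' : δ'.support ⊆ F)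
    (a : ℕ) (haF : a ∈ F) (ha : δ a < δ' a) (haM : M ≤ m a)
    (hmax : ∀ i ∈ F, m a < m i → δ i = δ' i) :
    B * GG (M - 1) ^ D * wt m δ < wt m δ' := by
  rw [wt_eq m δ F h, wt_eq m δ' F h']
  rw [← Finset.prod_filter_mul_prod_filter_not F (fun i => m a < m i),
    ← Finset.prod_filter_mul_prod_filter_not F (fun i => m a < m i) (fun i => GG (m i) ^ δ' i)]
  have e1 : ∏ i ∈ F.filter (fun i => m a < m i), GG (m i) ^ δ i =
      ∏ i ∈ F.filter (fun i => m a < m i), GG (m i) ^ δ' i := by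
    apply Finset.prod_congr rfl
    intro i hi
    rw [Finset.mem_filter] at hi
    rw [hmax i hi.1 hi.2]
  have e2 : F.filter (fun i => ¬ m a < m i) = insert a (F.filter (fun i => m i < m a)) := by
    ext i
    simp only [Finset.mem_filter, Finset.mem_insert, not_lt]
    constructor
    · rintro ⟨h1, h2⟩
      rcases h2.lt_or_eq with h3 | h3
      · exact Or.inr ⟨h1, h3⟩
      · exact Or.inl (hm h3)
    · rintro (rfl | ⟨h1, h2⟩)
      · exact ⟨haF, le_rfl⟩
      · exact ⟨h1, h2.le⟩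
  have hna : a ∉ F.filter (fun i => m i < m a) := by simp
  rw [e1, e2, Finset.prod_insert hna, Finset.prod_insert hna]
  set A := ∏ i ∈ F.filter (fun i => m a < m i), GG (m i) ^ δ' i with hA
  have hApos : 0 < A := Nat.pos_of_ne_zero (Finset.prod_ne_zero_iff.2 fun i _ => by
    have := GG_two (m i)
    positivity)
  have h3 : ∏ i ∈ F.filter (fun i => m i < m a), GG (m i) ^ δ i ≤ GG (m a - 1) ^ D := by
    calc ∏ i ∈ F.filter (fun i => m i < m a), GG (m i) ^ δ i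
        ≤ ∏ i ∈ F.filter (fun i => m i < m a), GG (m a - 1) ^ δ i := by
          apply Finset.prod_le_prod'
          intro i hi
          rw [Finset.mem_filter] at hi
          exact Nat.pow_le_pow_left (GG_mono (by omega)) _
      _ = GG (m a - 1) ^ ∑ i ∈ F.filter (fun i => m i < m a), δ i :=
          Finset.prod_pow_eq_pow_sum _ _ _
      _ ≤ GG (m a - 1) ^ D := by
          apply Nat.pow_le_pow_right (by have := GG_two (m a - 1); omega)
          refine le_trans ?_ hδ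
          rw [tdeg_eq δ F h]
          exact Finset.sum_le_sum_of_subset (Finset.filter_subset _ _)
  have h4 : 1 ≤ ∏ i ∈ F.filter (fun i => m i < m a), GG (m i) ^ δ' i :=
    Nat.pos_of_ne_zero (Finset.prod_ne_zero_iff.2 fun i _ => by
      have := GG_two (m i)
      positivity)
  have h5 := GG_key hM haM
  have h6 : GG (m a) ^ (δ a + 1) ≤ GG (m a) ^ δ' a :=
    Nat.pow_le_pow_right (by have := GG_two (m a); omega) ha
  have h7 : 0 < GG (m a) ^ δ a := by
    have := GG_two (m a)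
    positivity
  calc B * GG (M - 1) ^ D * (A * (GG (m a) ^ δ a *
        ∏ i ∈ F.filter (fun i => m i < m a), GG (m i) ^ δ i))
      ≤ B * GG (M - 1) ^ D * (A * (GG (m a) ^ δ a * GG (m a - 1) ^ D)) := by gcongr
    _ = A * GG (m a) ^ δ a * (B * GG (M - 1) ^ D * GG (m a - 1) ^ D) := by ring
    _ < A * GG (m a) ^ δ a * GG (m a) := by
        apply Nat.mul_lt_mul_of_pos_left h5
        positivity
    _ = A * GG (m a) ^ (δ a + 1) * 1 := by ring
    _ ≤ A * GG (m a) ^ δ' a * ∏ i ∈ F.filter (fun i => m i < m a), GG (m i) ^ δ' i := by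
        gcongr
    _ = _ := by ring

theorem sep (m : ℕ → ℕ) (hm : Function.Injective m) (B D M : ℕ) (hM : B + 2 * D + 2 ≤ M)
    (δ δ' : ℕ →₀ ℕ) (hδ : tdeg δ ≤ D) (hδ' : tdeg δ' ≤ D) (hL : ∀ i ∈ δ.support, M ≤ m i)
    (hL' : ∀ i ∈ δ'.support, M ≤ m i) (hne : δ ≠ δ') :
    B * GG (M - 1) ^ D * wt m δ < wt m δ' ∨ B * GG (M - 1) ^ D * wt m δ' < wt m δ := by
  classical
  set F := δ.support ∪ δ'.support with hF
  have hT : (F.filter (fun i => δ i ≠ δ' i)).Nonempty := by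
    by_contra hcon
    rw [Finset.not_nonempty_iff_eq_empty] at hcon
    apply hne
    ext i
    by_contra hi
    have : i ∈ F.filter (fun i => δ i ≠ δ' i) := by
      rw [Finset.mem_filter]
      refine ⟨?_, hi⟩
      rw [hF, Finset.mem_union, Finsupp.mem_support_iff, Finsupp.mem_support_iff]
      by_contra hc
      push Not at hc
      exact hi (hc.1.trans hc.2.symm)
    rw [hcon] at this
    simp at this
  obtain ⟨a, haT, hmax⟩ := Finset.exists_max_image _ m hT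
  rw [Finset.mem_filter] at haT
  have hmax' : ∀ i ∈ F, m a < m i → δ i = δ' i := by
    intro i hi h
    by_contra hc
    have := hmax i (Finset.mem_filter.2 ⟨hi, hc⟩)
    omega
  have haM : M ≤ m a := by
    have := haT.1
    rw [hF, Finset.mem_union] at this
    rcases this with h | h
    · exact hL a h
    · exact hL' a h
  rcases lt_or_gt_of_ne haT.2 with h | h
  · left
    exact sep_half m hm B D M hM δ δ' hδ F Finset.subset_union_left Finset.subset_union_right a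
      haT.1 h haM hmax'
  · right
    exact sep_half m hm B D M hM δ' δ hδ' F Finset.subset_union_right Finset.subset_union_left a
      haT.1 h haM (fun i hi h => (hmax' i hi h).symm)

/-- a dominated sum vanishes only if all its coefficients vanish -/
theorem dom_zero {ι : Type*} (Δ : Finset ι) (C : ι → ℤ) (w : ι → ℕ) (S : ℕ)
    (hS : ∑ δ ∈ Δ, (C δ).natAbs ≤ S)
    (hsep : ∀ δ ∈ Δ, ∀ δ' ∈ Δ, δ ≠ δ' → S * w δ < w δ' ∨ S * w δ' < w δ)
    (hw : ∀ δ ∈ Δ, 0 < w δ) (h0 : ∑ δ ∈ Δ, C δ * (w δ : ℤ) = 0) : ∀ δ ∈ Δ, C δ = 0 := by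
  classical
  by_contra hcon
  push Not at hcon
  have hT : (Δ.filter (fun δ => C δ ≠ 0)).Nonempty := by
    obtain ⟨δ, h1, h2⟩ := hcon
    exact ⟨δ, Finset.mem_filter.2 ⟨h1, h2⟩⟩
  obtain ⟨a, haT, hmax⟩ := Finset.exists_max_image _ w hT
  rw [Finset.mem_filter] at haT
  obtain ⟨haΔ, haC⟩ := haT
  have h1 := Finset.add_sum_erase Δ (fun δ => C δ * (w δ : ℤ)) haΔ
  rw [h0] at h1
  have h2 : (C a).natAbs * w a ≤ ∑ δ ∈ Δ.erase a, (C δ).natAbs * w δ := by
    have h3 : C a * (w a : ℤ) = -∑ δ ∈ Δ.erase a, C δ * (w δ : ℤ) := by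
      have : C a * (w a : ℤ) + ∑ δ ∈ Δ.erase a, C δ * (w δ : ℤ) = 0 := h1
      omega
    have h4 : |C a * (w a : ℤ)| ≤ ∑ δ ∈ Δ.erase a, |C δ * (w δ : ℤ)| := by
      rw [h3, abs_neg]
      exact Finset.abs_sum_le_sum_abs _ _
    have h5 : ((C a).natAbs * w a : ℤ) ≤ ∑ δ ∈ Δ.erase a, ((C δ).natAbs * w δ : ℤ) := by
      simpa [abs_mul, Int.natCast_natAbs] using h4
    exact_mod_cast h5
  have hCa : 1 ≤ (C a).natAbs := Int.natAbs_pos.2 haC
  have hS1 : (C a).natAbs ≤ S :=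
    le_trans (Finset.single_le_sum (f := fun δ => (C δ).natAbs) (fun _ _ => Nat.zero_le _) haΔ) hS
  have h6 : S * ∑ δ ∈ Δ.erase a, (C δ).natAbs * w δ ≤
      (∑ δ ∈ Δ.erase a, (C δ).natAbs) * w a := by
    rw [Finset.mul_sum, Finset.sum_mul]
    apply Finset.sum_le_sum
    intro δ hδ
    rw [Finset.mem_erase] at hδ
    by_cases hC : C δ = 0
    · simp [hC]
    · have h7 := hmax δ (Finset.mem_filter.2 ⟨hδ.2, hC⟩)
      have h8 : S * w δ < w a := by
        rcases hsep δ hδ.2 a haΔ hδ.1 with h | h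
        · exact h
        · exfalso
          have : w a ≤ S * w a := Nat.le_mul_of_pos_left _ (by omega)
          omega
      calc S * ((C δ).natAbs * w δ) = (C δ).natAbs * (S * w δ) := by ring
        _ ≤ (C δ).natAbs * w a := Nat.mul_le_mul_left _ h8.le
  have h9 := Finset.add_sum_erase Δ (fun δ => (C δ).natAbs) haΔ
  have h10 : ∑ δ ∈ Δ.erase a, (C δ).natAbs + 1 ≤ S := by
    have h9' : (C a).natAbs + ∑ δ ∈ Δ.erase a, (C δ).natAbs = ∑ δ ∈ Δ, (C δ).natAbs := h9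
    omega
  have hwa := hw a haΔ
  have h11 : S * ((C a).natAbs * w a) ≤ (∑ δ ∈ Δ.erase a, (C δ).natAbs) * w a :=
    (Nat.mul_le_mul_left _ h2).trans h6
  have h12 : S * w a ≤ S * ((C a).natAbs * w a) :=
    Nat.mul_le_mul_left _ (Nat.le_mul_of_pos_left _ hCa)
  have h13 : (∑ δ ∈ Δ.erase a, (C δ).natAbs + 1) * w a ≤ S * w a := Nat.mul_le_mul_right _ h10
  have h14 : (∑ δ ∈ Δ.erase a, (C δ).natAbs + 1) * w a ≤ (∑ δ ∈ Δ.erase a, (C δ).natAbs) * w a :=
    h13.trans (h12.trans h11)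
  rw [Nat.add_mul, Nat.one_mul] at h14
  omega

end MP_85de51_al
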